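import Mathlib

set_option autoImplicit false

/-! Algebraic entropy of endomorphisms of locally compact abelian groups: definitions. -/

open Topology Filter
open scoped Pointwise

namespace Pool.Agent.Q170.UC

universe u v

/-- The Minkowski sum `T_n(φ, C) = C + φ C + ... + φ^(n-1) C`. -/
def traj {G : Type u} [AddCommGroup G] (φ : G →+ G) (C : Set G) (n : ℕ) : Set G :=
  ∑ j ∈ Finset.range n, (⇑φ)^[j] '' C

/-- `H_A(φ, C) = limsup (log μ(T_n(φ, C))) / n`, an extended real number. -/
noncomputable def entropyOn {G : Type u} [AddCommGroup G] [MeasurableSpace G]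
    (μ : MeasureTheory.Measure G) (φ : G →+ G) (C : Set G) : EReal :=
  Filter.limsup (fun n : ℕ => ((Real.log (μ (traj φ C n)).toReal / n : ℝ) : EReal)) Filter.atTop

/-- The algebraic entropy `h_A(φ)`, computed with the measure `μ`: the supremum of the
`H_A(φ, C)` over all compact neighbourhoods `C` of zero. -/
noncomputable def algEntropy {G : Type u} [AddCommGroup G] [TopologicalSpace G]
    [MeasurableSpace G] (μ : MeasureTheory.Measure G) (φ : G →+ G) : EReal :=
  ⨆ C : {C : Set G // IsCompact C ∧ C ∈ 𝓝 (0 : G)}, entropyOn μ φ C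

/-- The restriction of an endomorphism to an invariant subgroup. -/
def restr {G : Type u} [AddCommGroup G] (φ : G →+ G) (K : AddSubgroup G)
    (h : ∀ x ∈ K, φ x ∈ K) : K →+ K :=
  (φ.comp K.subtype).codRestrict K fun x => h x x.2

end Pool.Agent.Q170.UC
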