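import Pool.Agent.Q170.UC.Topfg

set_option autoImplicit false

/-! The structure of locally compact abelian groups in the form used below. -/

open Topology Filter
open scoped Pointwise

namespace Pool.Agent.Q170.UC

universe u

/-- **A locally compact Hausdorff abelian group `G` has an open subgroup `H` with a compact
subgroup `K ≤ H` which contains `L ∩ H` for all compact subgroups `L` of `G`; and there is a
finite set `F` such that `H ≤ B + K` for all closed subgroups `B` which contain `F`.** -/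
theorem structure_lca (G : Type u) [AddCommGroup G] [TopologicalSpace G]
    [IsTopologicalAddGroup G] [LocallyCompactSpace G] [T2Space G] :
    ∃ H K : AddSubgroup G, IsOpen (H : Set G) ∧ K ≤ H ∧ IsCompact (K : Set G) ∧
      (∀ L : AddSubgroup G, IsCompact (L : Set G) → L ⊓ H ≤ K) ∧
      ∃ F : Finset G, ∀ B : AddSubgroup G, IsClosed (B : Set G) → (∀ f ∈ F, f ∈ B) →
        H ≤ B ⊔ K := by
  classical
  obtain ⟨V, hVc, hV0⟩ := exists_compact_mem_nhds (0 : G)
  let U : Set G := V ∪ -V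
  have hUc : IsCompact U := hVc.union hVc.neg
  have hU0 : U ∈ 𝓝 (0 : G) := Filter.mem_of_superset hV0 Set.subset_union_left
  have hUs : ∀ x ∈ U, -x ∈ U := by
    rintro x (hx | hx)
    · exact Or.inr (by simpa using hx)
    · exact Or.inl (by simpa using hx)
  let H : AddSubgroup G := AddSubgroup.closure U
  have hUH : U ⊆ H := AddSubgroup.subset_closure
  have hHo : IsOpen (H : Set G) :=
    AddSubgroup.isOpen_of_mem_nhds H (Filter.mem_of_superset hU0 hUH)
  have hHc : IsClosed (H : Set G) := H.isClosed_of_isOpen hHo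
  haveI : LocallyCompactSpace H := hHo.locallyCompactSpace
  have hemb : IsClosedEmbedding ((↑) : H → G) := hHc.isClosedEmbedding_subtypeVal
  have hU'c : IsCompact (((↑) : H → G) ⁻¹' U) := hemb.isCompact_preimage hUc
  have hU'0 : (((↑) : H → G) ⁻¹' U) ∈ 𝓝 (0 : H) :=
    hemb.continuous.continuousAt (by simpa using hU0)
  have hgen : AddSubgroup.closure (((↑) : H → G) ⁻¹' U) = ⊤ :=
    AddSubgroup.closure_closure_coe_preimage
  obtain ⟨m, Ψ, hΨc, hΨ⟩ := exists_proper (G := H) (((↑) : H → G) ⁻¹' U) hU'c hU'0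
    (fun x hx => hUs _ hx) hgen
  have hker : IsCompact ((Ψ.ker : AddSubgroup H) : Set H) := by
    have h1 : ((Ψ.ker : AddSubgroup H) : Set H) = {x | ‖Ψ x‖ ≤ 0} := by
      ext x
      simp [AddMonoidHom.mem_ker]
    rw [h1]; exact hΨ 0
  refine ⟨H, Ψ.ker.map H.subtype, hHo, ?_, ?_, ?_, ?_⟩
  · rintro x ⟨y, -, rfl⟩
    exact y.2
  · exact hker.image continuous_subtype_val
  · rintro L hL x ⟨hxL, hxH⟩
    refine ⟨⟨x, hxH⟩, ?_, rfl⟩
    have hL' : IsCompact (((↑) : H → G) ⁻¹' L) := hemb.isCompact_preimage hL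
    obtain ⟨C, hC⟩ := (hL'.image hΨc).isBounded.exists_norm_le
    show (⟨x, hxH⟩ : H) ∈ Ψ.ker
    rw [AddMonoidHom.mem_ker]
    have hb : ∀ n : ℕ, (n : ℝ) * ‖Ψ ⟨x, hxH⟩‖ ≤ C := by
      intro n
      have h1 := hC (Ψ (n • (⟨x, hxH⟩ : H))) ⟨n • (⟨x, hxH⟩ : H), L.nsmul_mem hxL n, rfl⟩
      rw [map_nsmul, ← Nat.cast_smul_eq_nsmul ℝ, norm_smul, Real.norm_eq_abs,
        abs_of_nonneg (Nat.cast_nonneg n)] at h1
      exact h1
    by_contra h0
    have hpos : 0 < ‖Ψ ⟨x, hxH⟩‖ := norm_pos_iff.2 h0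
    obtain ⟨n, hn⟩ := exists_nat_gt (C / ‖Ψ ⟨x, hxH⟩‖)
    rw [div_lt_iff₀ hpos] at hn
    exact absurd (hb n) (not_le.2 hn)
  · have hproper : IsProperMap Ψ := by
      rw [isProperMap_iff_isCompact_preimage]
      refine ⟨hΨc, fun {C} hC => ?_⟩
      obtain ⟨R, hR⟩ := hC.isBounded.exists_norm_le
      exact (hΨ R).of_isClosed_subset (hC.isClosed.preimage hΨc) fun x hx => hR _ hx
    have hclosed : ∀ B : AddSubgroup G, IsClosed (B : Set G) →
        IsClosed (((B.comap H.subtype).map Ψ : AddSubgroup (Fin m → ℝ)) : Set (Fin m → ℝ)) := by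
      intro B hB
      exact hproper.isClosedMap _ (hB.preimage hemb.continuous)
    have htop : IsClosed ((Ψ.range : AddSubgroup (Fin m → ℝ)) : Set (Fin m → ℝ)) := by
      rw [AddMonoidHom.coe_range]
      exact hproper.isClosedMap.isClosed_range
    obtain ⟨F1, hF1, hF1B⟩ := top_fg m (Fin m → ℝ) (by simp) Ψ.range htop
    have hlift : ∀ f : Fin m → ℝ, ∃ h : H, f ∈ Ψ.range → Ψ h = f := by
      intro f
      by_cases hf : f ∈ Ψ.range
      · obtain ⟨h, hh⟩ := hf
        exact ⟨h, fun _ => hh⟩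
      · exact ⟨0, fun h => absurd h hf⟩
    choose lift hlift using hlift
    refine ⟨F1.image (fun f => ((lift f : H) : G)), fun B hB hFB x hx => ?_⟩
    have h1 : Ψ.range ≤ (B.comap H.subtype).map Ψ := by
      refine hF1B _ (hclosed B hB) fun f hf => ?_
      exact ⟨lift f, hFB _ (Finset.mem_image_of_mem _ hf), hlift f (hF1 f hf)⟩
    obtain ⟨b, hb, hbx⟩ := h1 ⟨⟨x, hx⟩, rfl⟩
    rw [AddSubgroup.mem_sup]
    refine ⟨b, hb, x - b, ⟨⟨x, hx⟩ - b, ?_, rfl⟩, by abel⟩
    show (⟨x, hx⟩ - b : H) ∈ Ψ.ker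
    rw [AddMonoidHom.mem_ker, map_sub, hbx, sub_self]

end Pool.Agent.Q170.UC
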