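import Pool.Agent.Q170.UC.Defs
import Pool.Agent.Q170.UC.Struct

set_option autoImplicit false

/-! Growth of the trajectories of a compact subgroup. -/

open Topology Filter
open scoped Pointwise

namespace Pool.Agent.Q170.UC

universe u

section

variable {G : Type u} [AddCommGroup G]

lemma mem_traj {φ : G →+ G} {C : Set G} {n : ℕ} {x : G} :
    x ∈ traj φ C n ↔ ∃ c : ℕ → G, (∀ j < n, c j ∈ C) ∧
      ∑ j ∈ Finset.range n, (⇑φ)^[j] (c j) = x := by
  classical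
  unfold traj
  rw [Set.mem_finsetSum]
  constructor
  · rintro ⟨g, hg, hx⟩
    have h1 : ∀ j, ∃ c : G, j < n → (c ∈ C ∧ (⇑φ)^[j] c = g j) := by
      intro j
      by_cases hj : j < n
      · obtain ⟨c, hc, hcj⟩ := hg (Finset.mem_range.2 hj)
        exact ⟨c, fun _ => ⟨hc, hcj⟩⟩
      · exact ⟨0, fun h => absurd h hj⟩
    choose c hc using h1
    refine ⟨c, fun j hj => (hc j hj).1, ?_⟩
    rw [← hx]
    exact Finset.sum_congr rfl fun j hj => (hc j (Finset.mem_range.1 hj)).2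
  · rintro ⟨c, hc, hx⟩
    exact ⟨fun j => (⇑φ)^[j] (c j), fun {j} hj => ⟨c j, hc j (Finset.mem_range.1 hj), rfl⟩, hx⟩

lemma traj_succ (φ : G →+ G) (C : Set G) (n : ℕ) :
    traj φ C (n + 1) = traj φ C n + (⇑φ)^[n] '' C := by
  unfold traj
  rw [Finset.sum_range_succ]

lemma traj_zero (φ : G →+ G) (C : Set G) : traj φ C 0 = {0} := by
  unfold traj
  rw [Finset.sum_range_zero]
  rfl

lemma traj_one (φ : G →+ G) (C : Set G) : traj φ C 1 = C := by
  rw [traj_succ, traj_zero]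
  simp

lemma iter_add (φ : G →+ G) (n : ℕ) (x y : G) :
    (⇑φ)^[n] (x + y) = (⇑φ)^[n] x + (⇑φ)^[n] y := iterate_map_add φ n x y

lemma iter_sub (φ : G →+ G) (n : ℕ) (x y : G) :
    (⇑φ)^[n] (x - y) = (⇑φ)^[n] x - (⇑φ)^[n] y := iterate_map_sub φ n x y

lemma iter_zero (φ : G →+ G) (n : ℕ) : (⇑φ)^[n] (0 : G) = 0 := iterate_map_zero φ n

lemma traj_mono (φ : G →+ G) {C D : Set G} (h : C ⊆ D) (n : ℕ) : traj φ C n ⊆ traj φ D n := by
  intro x hx
  obtain ⟨c, hc, rfl⟩ := mem_traj.1 hx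
  exact mem_traj.2 ⟨c, fun j hj => h (hc j hj), rfl⟩

lemma traj_add (φ : G →+ G) (C D : Set G) (n : ℕ) :
    traj φ (C + D) n = traj φ C n + traj φ D n := by
  ext x
  constructor
  · intro hx
    obtain ⟨e, he, rfl⟩ := mem_traj.1 hx
    have h1 : ∀ j, ∃ c d : G, j < n → (c ∈ C ∧ d ∈ D ∧ c + d = e j) := by
      intro j
      by_cases hj : j < n
      · obtain ⟨c, hc, d, hd, h⟩ := he j hj
        exact ⟨c, d, fun _ => ⟨hc, hd, h⟩⟩
      · exact ⟨0, 0, fun h => absurd h hj⟩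
    choose c d hcd using h1
    refine ⟨_, mem_traj.2 ⟨c, fun j hj => (hcd j hj).1, rfl⟩, _,
      mem_traj.2 ⟨d, fun j hj => (hcd j hj).2.1, rfl⟩, ?_⟩
    show _ + _ = _
    rw [← Finset.sum_add_distrib]
    refine Finset.sum_congr rfl fun j hj => ?_
    rw [← iter_add, (hcd j (Finset.mem_range.1 hj)).2.2]
  · rintro ⟨y, hy, z, hz, rfl⟩
    obtain ⟨c, hc, rfl⟩ := mem_traj.1 hy
    obtain ⟨d, hd, rfl⟩ := mem_traj.1 hz
    refine mem_traj.2 ⟨fun j => c j + d j, fun j hj => Set.add_mem_add (hc j hj) (hd j hj), ?_⟩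
    show _ = _ + _
    rw [← Finset.sum_add_distrib]
    exact Finset.sum_congr rfl fun j _ => iter_add _ _ _ _

/-- the trajectory of a subgroup is a subgroup -/
def trK (φ : G →+ G) (K : AddSubgroup G) (n : ℕ) : AddSubgroup G where
  carrier := traj φ K n
  zero_mem' := mem_traj.2 ⟨fun _ => 0, fun _ _ => K.zero_mem, by simp [iter_zero]⟩
  add_mem' := by
    intro x y hx hy
    obtain ⟨c, hc, rfl⟩ := mem_traj.1 hx
    obtain ⟨d, hd, rfl⟩ := mem_traj.1 hy
    refine mem_traj.2 ⟨fun j => c j + d j, fun j hj => K.add_mem (hc j hj) (hd j hj), ?_⟩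
    rw [← Finset.sum_add_distrib]
    exact Finset.sum_congr rfl fun j _ => iter_add _ _ _ _
  neg_mem' := by
    intro x hx
    obtain ⟨c, hc, rfl⟩ := mem_traj.1 hx
    refine mem_traj.2 ⟨fun j => - c j, fun j hj => K.neg_mem (hc j hj), ?_⟩
    rw [← Finset.sum_neg_distrib]
    exact Finset.sum_congr rfl fun j _ => iterate_map_neg φ j _

lemma mem_trK {φ : G →+ G} {K : AddSubgroup G} {n : ℕ} {x : G} :
    x ∈ trK φ K n ↔ x ∈ traj φ K n := Iff.rfl

lemma coe_trK (φ : G →+ G) (K : AddSubgroup G) (n : ℕ) :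
    ((trK φ K n : AddSubgroup G) : Set G) = traj φ K n := rfl

lemma trK_succ_mem {φ : G →+ G} {K : AddSubgroup G} {n : ℕ} {x : G} :
    x ∈ trK φ K (n + 1) ↔ ∃ y ∈ trK φ K n, ∃ z ∈ K, y + (⇑φ)^[n] z = x := by
  rw [mem_trK, traj_succ]
  constructor
  · rintro ⟨y, hy, w, ⟨z, hz, rfl⟩, rfl⟩
    exact ⟨y, hy, z, hz, rfl⟩
  · rintro ⟨y, hy, z, hz, rfl⟩
    exact ⟨y, hy, _, ⟨z, hz, rfl⟩, rfl⟩

lemma trK_le_succ (φ : G →+ G) (K : AddSubgroup G) (n : ℕ) : trK φ K n ≤ trK φ K (n + 1) := by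
  intro x hx
  exact trK_succ_mem.2 ⟨x, hx, 0, K.zero_mem, by rw [iter_zero, add_zero]⟩

lemma trK_mono (φ : G →+ G) (K : AddSubgroup G) {n m : ℕ} (h : n ≤ m) :
    trK φ K n ≤ trK φ K m :=
  monotone_nat_of_le_succ (trK_le_succ φ K) h

lemma le_trK (φ : G →+ G) (K : AddSubgroup G) {n : ℕ} (h : 1 ≤ n) : K ≤ trK φ K n := by
  refine le_trans ?_ (trK_mono φ K h)
  intro x hx
  rw [mem_trK, traj_one]; exact hx

lemma iter_mem_trK (φ : G →+ G) (K : AddSubgroup G) (n : ℕ) {x : G} (hx : x ∈ K) :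
    (⇑φ)^[n] x ∈ trK φ K (n + 1) :=
  trK_succ_mem.2 ⟨0, zero_mem _, x, hx, by rw [zero_add]⟩

lemma map_trK (φ : G →+ G) (K : AddSubgroup G) (n : ℕ) {x : G} (hx : x ∈ trK φ K n) :
    φ x ∈ trK φ K (n + 1) := by
  obtain ⟨c, hc, rfl⟩ := mem_traj.1 hx
  rw [map_sum]
  refine sum_mem fun j hj => ?_
  rw [← Function.iterate_succ_apply' (⇑φ)]
  have h1 := iter_mem_trK φ K (j + 1) (hc j (Finset.mem_range.1 hj))
  exact trK_mono φ K (by have := Finset.mem_range.1 hj; omega) h1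

lemma iter_trK (φ : G →+ G) (K : AddSubgroup G) (n k : ℕ) {x : G} (hx : x ∈ trK φ K n) :
    (⇑φ)^[k] x ∈ trK φ K (n + k) := by
  induction k with
  | zero => exact hx
  | succ k ih =>
    rw [Function.iterate_succ_apply']
    exact map_trK φ K _ ih

end

section

variable {G : Type u} [AddCommGroup G] [TopologicalSpace G] [IsTopologicalAddGroup G]

lemma isCompact_traj {φ : G →+ G} (hφ : Continuous φ) {C : Set G} (hC : IsCompact C) (n : ℕ) :
    IsCompact (traj φ C n) := by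
  induction n with
  | zero => rw [traj_zero]; exact isCompact_singleton
  | succ n ih => rw [traj_succ]; exact ih.add (hC.image (hφ.iterate n))

/-- stable coset representatives -/
theorem exists_reps {φ : G →+ G} (hφ : Continuous φ) {H K : AddSubgroup G}
    (hH : IsOpen (H : Set G)) (hK : IsCompact (K : Set G))
    (hS : ∀ L : AddSubgroup G, IsCompact (L : Set G) → L ⊓ H ≤ K) :
    ∃ n0 : ℕ, 1 ≤ n0 ∧ ∃ R : Finset G, R.Nonempty ∧ (∀ r ∈ R, r ∈ K) ∧
      (∀ x ∈ K, ∃ r ∈ R, (⇑φ)^[n0] (x - r) ∈ trK φ K n0) ∧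
      ∀ n, n0 ≤ n → ∀ r ∈ R, ∀ r' ∈ R, (⇑φ)^[n] (r - r') ∈ trK φ K n → r = r' := by
  classical
  have hex : ∃ k : ℕ, ∃ n0 : ℕ, 1 ≤ n0 ∧ ∃ R : Finset G, R.card = k ∧ (∀ r ∈ R, r ∈ K) ∧
      (∀ x ∈ K, ∃ r ∈ R, (⇑φ)^[n0] (x - r) ∈ trK φ K n0) := by
    obtain ⟨t, htK, ht⟩ := hK.elim_nhds_subcover (fun r : G => {x : G | φ (x - r) ∈ H}) (by
      intro r _
      have hc : ContinuousAt (fun x : G => φ (x - r)) r := by fun_prop
      apply hc
      show (H : Set G) ∈ 𝓝 (φ (r - r))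
      rw [sub_self, map_zero]
      exact hH.mem_nhds H.zero_mem)
    refine ⟨t.card, 1, le_rfl, t, rfl, htK, fun x hx => ?_⟩
    have h1 := ht hx
    rw [Set.mem_iUnion₂] at h1
    obtain ⟨r, hr, h2⟩ := h1
    refine ⟨r, hr, ?_⟩
    rw [Function.iterate_one]
    have h3 : φ (x - r) ∈ trK φ K 2 := by
      have := iter_mem_trK φ K 1 (K.sub_mem hx (htK r hr))
      rwa [Function.iterate_one] at this
    exact le_trK φ K le_rfl (hS (trK φ K 2) (isCompact_traj hφ hK 2) ⟨h3, h2⟩)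
  obtain ⟨n0, hn0, R, hRc, hRK, hR⟩ := Nat.find_spec hex
  refine ⟨n0, hn0, R, ?_, hRK, hR, ?_⟩
  · obtain ⟨r, hr, -⟩ := hR 0 K.zero_mem
    exact ⟨r, hr⟩
  · intro n hn r hr r' hr' hrr
    by_contra hne
    have hlt : (R.erase r').card < Nat.find hex := by
      rw [← hRc]; exact Finset.card_erase_lt_of_mem hr'
    refine Nat.find_min hex hlt ⟨n, by omega, R.erase r', rfl,
      fun s hs => hRK s (Finset.mem_of_mem_erase hs), fun x hx => ?_⟩
    obtain ⟨s, hs, hxs⟩ := hR x hx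
    have h1 : (⇑φ)^[n] (x - s) ∈ trK φ K n := by
      have := iter_trK φ K n0 (n - n0) hxs
      rw [← Function.iterate_add_apply] at this
      have e1 : n - n0 + n0 = n := by omega
      have e2 : n0 + (n - n0) = n := by omega
      rwa [e1, e2] at this
    by_cases hsr : s = r'
    · refine ⟨r, Finset.mem_erase.2 ⟨hne, hr⟩, ?_⟩
      have h2 : x - r = (x - s) - (r - r') := by rw [hsr]; abel
      rw [h2, iter_sub]
      exact sub_mem h1 hrr
    · exact ⟨s, Finset.mem_erase.2 ⟨hsr, hs⟩, h1⟩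

/-- upper bound for the number of cosets -/
theorem upper_cosets {φ : G →+ G} (hφ : Continuous φ) {H K : AddSubgroup G}
    (hH : IsOpen (H : Set G)) (hK : IsCompact (K : Set G))
    (hS : ∀ L : AddSubgroup G, IsCompact (L : Set G) → L ⊓ H ≤ K)
    {n0 : ℕ} {R : Finset G}
    (hR : ∀ x ∈ K, ∃ r ∈ R, (⇑φ)^[n0] (x - r) ∈ trK φ K n0) :
    ∃ c : ℕ, ∀ k : ℕ, ∃ B : Finset G, B.card ≤ c * R.card ^ k ∧
      ∀ x ∈ trK φ K (n0 + k), ∃ b ∈ B, x - b ∈ K := by
  classical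
  obtain ⟨t, htK, ht⟩ := (isCompact_traj hφ hK n0).elim_nhds_subcover
    (fun r : G => {x : G | x - r ∈ H}) (by
      intro r _
      have hc : ContinuousAt (fun x : G => x - r) r := by fun_prop
      apply hc
      show (H : Set G) ∈ 𝓝 (r - r)
      rw [sub_self]
      exact hH.mem_nhds H.zero_mem)
  refine ⟨t.card, fun k => ?_⟩
  induction k with
  | zero =>
    refine ⟨t, by simp, fun x hx => ?_⟩
    have h1 := ht hx
    rw [Set.mem_iUnion₂] at h1
    obtain ⟨b, hb, h2⟩ := h1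
    exact ⟨b, hb, hS (trK φ K n0) (isCompact_traj hφ hK n0)
      ⟨(trK φ K n0).sub_mem hx (htK b hb), h2⟩⟩
  | succ k ih =>
    obtain ⟨B, hBc, hB⟩ := ih
    refine ⟨(B ×ˢ R).image (fun p => p.1 + (⇑φ)^[n0 + k] p.2), ?_, ?_⟩
    · calc _ ≤ (B ×ˢ R).card := Finset.card_image_le
        _ = B.card * R.card := Finset.card_product _ _
        _ ≤ t.card * R.card ^ k * R.card := Nat.mul_le_mul_right _ hBc
        _ = t.card * R.card ^ (k + 1) := by ring
    · intro x hx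
      obtain ⟨y, hy, z, hz, rfl⟩ := trK_succ_mem.1 (show x ∈ trK φ K ((n0 + k) + 1) from hx)
      obtain ⟨r, hr, hzr⟩ := hR z hz
      have h1 : (⇑φ)^[n0 + k] (z - r) ∈ trK φ K (n0 + k) := by
        have := iter_trK φ K n0 k hzr
        rw [← Function.iterate_add_apply] at this
        rwa [Nat.add_comm k n0] at this
      obtain ⟨b, hb, hbK⟩ := hB _ (add_mem hy h1)
      refine ⟨b + (⇑φ)^[n0 + k] r, Finset.mem_image.2 ⟨(b, r), Finset.mem_product.2 ⟨hb, hr⟩, rfl⟩,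
        ?_⟩
      have h2 : y + (⇑φ)^[n0 + k] z - (b + (⇑φ)^[n0 + k] r)
          = y + (⇑φ)^[n0 + k] (z - r) - b := by
        rw [iter_sub]; abel
      rw [h2]; exact hbK

omit [TopologicalSpace G] [IsTopologicalAddGroup G] in
/-- lower bound for the number of cosets -/
theorem lower_cosets {φ : G →+ G} {K K' : AddSubgroup G} (hK' : K' ≤ K)
    {n0 : ℕ} (hn0 : 1 ≤ n0) {R : Finset G} (hRK : ∀ r ∈ R, r ∈ K')
    (hR : ∀ n, n0 ≤ n → ∀ r ∈ R, ∀ r' ∈ R, (⇑φ)^[n] (r - r') ∈ trK φ K n → r = r') (k : ℕ) :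
    ∃ Z : Finset G, Z.card = R.card ^ k ∧ (∀ z ∈ Z, z ∈ trK φ K' (n0 + k)) ∧
      ∀ z ∈ Z, ∀ z' ∈ Z, z - z' ∈ K → z = z' := by
  classical
  induction k with
  | zero =>
    refine ⟨{0}, by simp, ?_, ?_⟩
    · intro z hz
      rw [Finset.mem_singleton] at hz
      rw [hz]; exact zero_mem _
    · intro z hz z' hz' _
      rw [Finset.mem_singleton] at hz hz'
      rw [hz, hz']
  | succ k ih =>
    obtain ⟨Z, hZc, hZ, hZK⟩ := ih
    have hle : ∀ n, trK φ K' n ≤ trK φ K n := fun n => traj_mono φ hK' n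
    have hinj : ∀ p ∈ Z ×ˢ R, ∀ p' ∈ Z ×ˢ R,
        (p.1 + (⇑φ)^[n0 + k] p.2) - (p'.1 + (⇑φ)^[n0 + k] p'.2) ∈ K → p = p' := by
      rintro ⟨z, r⟩ hp ⟨z', r'⟩ hp' h
      obtain ⟨hz, hr⟩ := Finset.mem_product.1 hp
      obtain ⟨hz', hr'⟩ := Finset.mem_product.1 hp'
      simp only at hz hr hz' hr' h
      have h1 : (⇑φ)^[n0 + k] (r - r') ∈ trK φ K (n0 + k) := by
        have h2 := le_trK φ K (show 1 ≤ n0 + k by omega) h
        have h3 : (⇑φ)^[n0 + k] (r - r') =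
            (z + (⇑φ)^[n0 + k] r - (z' + (⇑φ)^[n0 + k] r')) - (z - z') := by
          rw [iter_sub]; abel
        rw [h3]
        exact sub_mem h2 (sub_mem (hle _ (hZ z hz)) (hle _ (hZ z' hz')))
      have h4 := hR (n0 + k) (by omega) r hr r' hr' h1
      subst h4
      have h5 : z - z' ∈ K := by
        have : z + (⇑φ)^[n0 + k] r - (z' + (⇑φ)^[n0 + k] r) = z - z' := by abel
        rwa [this] at h
      rw [hZK z hz z' hz' h5]
    refine ⟨(Z ×ˢ R).image (fun p => p.1 + (⇑φ)^[n0 + k] p.2), ?_, ?_, ?_⟩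
    · rw [Finset.card_image_of_injOn, Finset.card_product, hZc, pow_succ]
      intro p hp p' hp' h
      apply hinj p hp p' hp'
      have h' : p.1 + (⇑φ)^[n0 + k] p.2 = p'.1 + (⇑φ)^[n0 + k] p'.2 := h
      rw [h', sub_self]; exact zero_mem _
    · intro x hx
      obtain ⟨⟨z, r⟩, hp, rfl⟩ := Finset.mem_image.1 hx
      obtain ⟨hz, hr⟩ := Finset.mem_product.1 hp
      exact trK_succ_mem.2 ⟨z, hZ z hz, r, hRK r hr, rfl⟩
    · intro x hx x' hx' h
      obtain ⟨p, hp, rfl⟩ := Finset.mem_image.1 hx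
      obtain ⟨p', hp', rfl⟩ := Finset.mem_image.1 hx'
      rw [hinj p hp p' hp' h]

/-- maximal separated subsets of compact sets -/
theorem exists_sep {Z N : Set G} (hZ : IsCompact Z) (hN : N ∈ 𝓝 (0 : G)) :
    ∃ X : Finset G, (∀ x ∈ X, x ∈ Z) ∧ (∀ x ∈ X, ∀ x' ∈ X, x - x' ∈ N → x = x') ∧
      ∀ z ∈ Z, ∃ x ∈ X, z - x ∈ N ∨ x - z ∈ N := by
  classical
  by_contra hno
  push Not at hno
  obtain ⟨W, hW, hWN⟩ := exists_nhds_half_neg hN
  obtain ⟨t, ht⟩ := hZ.elim_finite_subcover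
    (fun g : G => (fun v => g + v) '' interior W)
    (fun g => (isOpenMap_add_left g) _ isOpen_interior)
    (by
      intro y _
      exact Set.mem_iUnion.2 ⟨y, 0, mem_interior_iff_mem_nhds.2 hW, by simp⟩)
  have hex : ∀ k : ℕ, ∃ X : Finset G, X.card = k ∧ (∀ x ∈ X, x ∈ Z) ∧
      (∀ x ∈ X, ∀ x' ∈ X, x - x' ∈ N → x = x') := by
    intro k
    induction k with
    | zero => exact ⟨∅, rfl, by simp, by simp⟩
    | succ k ih =>
      obtain ⟨X, hXc, hXZ, hXN⟩ := ih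
      obtain ⟨z, hz, hzX⟩ := hno X hXZ hXN
      have hzn : z ∉ X := by
        intro h
        have := (hzX z h).1
        rw [sub_self] at this
        exact this (mem_of_mem_nhds hN)
      refine ⟨insert z X, by rw [Finset.card_insert_of_notMem hzn, hXc], ?_, ?_⟩
      · intro x hx
        rcases Finset.mem_insert.1 hx with rfl | hx
        · exact hz
        · exact hXZ x hx
      · intro x hx x' hx' h
        rcases Finset.mem_insert.1 hx with rfl | hx1
        · rcases Finset.mem_insert.1 hx' with rfl | hx2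
          · rfl
          · exact absurd h (hzX x' hx2).1
        · rcases Finset.mem_insert.1 hx' with rfl | hx2
          · exact absurd h (hzX x hx1).2
          · exact hXN x hx1 x' hx2 h
  obtain ⟨X, hXc, hXZ, hXN⟩ := hex (t.card + 1)
  have hch : ∀ x ∈ X, ∃ g ∈ t, x ∈ (fun v => g + v) '' interior W := by
    intro x hx
    have := ht (hXZ x hx)
    rw [Set.mem_iUnion₂] at this
    obtain ⟨g, hg, h⟩ := this
    exact ⟨g, hg, h⟩
  choose! f hft hf using hch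
  obtain ⟨x, hx, x', hx', hne, hfe⟩ := Finset.exists_ne_map_eq_of_card_lt_of_maps_to
    (s := X) (t := t) (by omega) (f := f) (fun x hx => hft x hx)
  apply hne
  apply hXN x hx x' hx'
  obtain ⟨v, hv, h1⟩ := hf x hx
  obtain ⟨v', hv', h2⟩ := hf x' hx'
  have e1 : f x + v = x := h1
  have e2 : f x' + v' = x' := h2
  rw [← hfe] at e2
  have h3 : x - x' = v - v' := by rw [← e1, ← e2]; abel
  rw [h3]
  exact hWN _ (interior_subset hv) _ (interior_subset hv')

end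

end Pool.Agent.Q170.UC
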