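import Pool.Agent.Q170.UC.Lat

set_option autoImplicit false

/-! Structure of compactly generated locally compact abelian groups, part 3: a proper
homomorphism to a euclidean space. -/

open Topology Filter
open scoped Pointwise

namespace Pool.Agent.Q170.UC

universe u

/-- an almost additive map is close to an additive map -/
theorem hyers {G : Type u} [AddCommGroup G] {E : Type} [NormedAddCommGroup E]
    [NormedSpace ℝ E] [CompleteSpace E] (q : G → E) (B : ℝ)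
    (hq : ∀ x y, ‖q (x + y) - q x - q y‖ ≤ B) :
    ∃ Ψ : G →+ E, ∀ x, ‖Ψ x - q x‖ ≤ B := by
  have hB : 0 ≤ B := le_trans (norm_nonneg _) (hq 0 0)
  let s : G → ℕ → E := fun x n => ((2 : ℝ) ^ n)⁻¹ • q ((2 : ℕ) ^ n • x)
  have hstep : ∀ x n, dist (s x n) (s x (n + 1)) ≤ B / 2 / 2 ^ n := by
    intro x n
    have h1 : s x n - s x (n + 1) =
        -(((2 : ℝ) ^ (n + 1))⁻¹ • (q ((2 : ℕ) ^ n • x + (2 : ℕ) ^ n • x)
          - q ((2 : ℕ) ^ n • x) - q ((2 : ℕ) ^ n • x))) := by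
      have h2 : (2 : ℕ) ^ (n + 1) • x = (2 : ℕ) ^ n • x + (2 : ℕ) ^ n • x := by
        rw [pow_succ, mul_comm, mul_smul, two_smul]
      have h3 : ((2 : ℝ) ^ n)⁻¹ = ((2 : ℝ) ^ (n + 1))⁻¹ + ((2 : ℝ) ^ (n + 1))⁻¹ := by
        rw [pow_succ]; field_simp; norm_num
      show ((2 : ℝ) ^ n)⁻¹ • q ((2 : ℕ) ^ n • x) - ((2 : ℝ) ^ (n + 1))⁻¹ • q ((2 : ℕ) ^ (n + 1) • x) = _
      rw [h2, h3, add_smul, smul_sub, smul_sub]
      abel
    rw [dist_eq_norm, h1, norm_neg, norm_smul]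
    have h4 := hq ((2 : ℕ) ^ n • x) ((2 : ℕ) ^ n • x)
    have h5 : ‖((2 : ℝ) ^ (n + 1))⁻¹‖ = ((2 : ℝ) ^ (n + 1))⁻¹ := by
      rw [Real.norm_eq_abs, abs_of_pos (by positivity)]
    rw [h5]
    have h6 : B / 2 / 2 ^ n = ((2 : ℝ) ^ (n + 1))⁻¹ * B := by
      rw [pow_succ]; field_simp
    rw [h6]
    exact mul_le_mul_of_nonneg_left h4 (by positivity)
  have hcau : ∀ x, CauchySeq (s x) := fun x => cauchySeq_of_le_geometric_two (hstep x)
  choose L hL using fun x => cauchySeq_tendsto_of_complete (hcau x)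
  have hLq : ∀ x, ‖L x - q x‖ ≤ B := by
    intro x
    have h1 := dist_le_of_le_geometric_two_of_tendsto₀ (hstep x) (hL x)
    have h2 : s x 0 = q x := by
      show ((2 : ℝ) ^ 0)⁻¹ • q ((2 : ℕ) ^ 0 • x) = q x
      simp
    rw [h2, dist_comm, dist_eq_norm] at h1
    exact h1
  have hadd : ∀ x y, L (x + y) = L x + L y := by
    intro x y
    have h1 : Tendsto (fun n => s (x + y) n - s x n - s y n) atTop (𝓝 (L (x + y) - L x - L y)) :=
      ((hL (x + y)).sub (hL x)).sub (hL y)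
    have h2 : Tendsto (fun n => s (x + y) n - s x n - s y n) atTop (𝓝 0) := by
      apply squeeze_zero_norm (a := fun n : ℕ => B * (2⁻¹ : ℝ) ^ n)
      · intro n
        have h3 : s (x + y) n - s x n - s y n = ((2 : ℝ) ^ n)⁻¹ •
            (q ((2 : ℕ) ^ n • x + (2 : ℕ) ^ n • y) - q ((2 : ℕ) ^ n • x) - q ((2 : ℕ) ^ n • y)) := by
          show ((2 : ℝ) ^ n)⁻¹ • q ((2 : ℕ) ^ n • (x + y)) - ((2 : ℝ) ^ n)⁻¹ • q ((2 : ℕ) ^ n • x)
            - ((2 : ℝ) ^ n)⁻¹ • q ((2 : ℕ) ^ n • y) = _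
          rw [smul_add, smul_sub, smul_sub]
        rw [h3, norm_smul]
        have h5 : ‖((2 : ℝ) ^ n)⁻¹‖ = (2⁻¹ : ℝ) ^ n := by
          rw [Real.norm_eq_abs, abs_of_pos (by positivity), inv_pow]
        rw [h5, mul_comm]
        exact mul_le_mul_of_nonneg_right (hq _ _) (by positivity)
      · have := (tendsto_pow_atTop_nhds_zero_of_lt_one (r := (2⁻¹ : ℝ)) (by norm_num)
          (by norm_num)).const_mul B
        simpa using this
    have h3 := tendsto_nhds_unique h1 h2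
    rw [sub_sub, sub_eq_zero] at h3
    exact h3
  exact ⟨AddMonoidHom.mk' L hadd, hLq⟩

/-- a homomorphism to a normed space bounded near zero is continuous -/
theorem cont_of_bdd {G : Type u} [AddCommGroup G] [TopologicalSpace G] [IsTopologicalAddGroup G]
    {E : Type} [NormedAddCommGroup E] [NormedSpace ℝ E] (Ψ : G →+ E) {U : Set G}
    (hU : U ∈ 𝓝 (0 : G)) {C : ℝ} (hC : ∀ x ∈ U, ‖Ψ x‖ ≤ C) : Continuous Ψ := by
  apply continuous_of_continuousAt_zero
  rw [ContinuousAt, map_zero, Metric.tendsto_nhds]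
  intro ε hε
  obtain ⟨k, hk⟩ := exists_nat_gt (C / ε)
  have hC0 : 0 ≤ C := le_trans (norm_nonneg _) (hC 0 (mem_of_mem_nhds hU))
  have hk0 : (0 : ℝ) < k := lt_of_le_of_lt (div_nonneg hC0 hε.le) hk
  have h1 : {x : G | k • x ∈ U} ∈ 𝓝 (0 : G) := by
    have hc : ContinuousAt (fun x : G => k • x) 0 := (continuous_const_smul k).continuousAt
    apply hc
    simpa using hU
  filter_upwards [h1] with x hx
  rw [dist_zero_right]
  have h2 := hC _ hx
  rw [map_nsmul, ← Nat.cast_smul_eq_nsmul ℝ, norm_smul, Real.norm_eq_abs, abs_of_pos hk0] at h2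
  rw [div_lt_iff₀ hε] at hk
  by_contra h3
  push Not at h3
  nlinarith [mul_le_mul_of_nonneg_left h3 hk0.le]

/-- **A compactly generated locally compact abelian group has a continuous homomorphism to a
euclidean space for which the preimages of bounded sets are relatively compact.** -/
theorem exists_proper {G : Type u} [AddCommGroup G] [TopologicalSpace G]
    [IsTopologicalAddGroup G] [LocallyCompactSpace G] (U : Set G) (hU : IsCompact U)
    (hU0 : U ∈ 𝓝 (0 : G)) (hs : ∀ x ∈ U, -x ∈ U) (hgen : AddSubgroup.closure U = ⊤) :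
    ∃ (m : ℕ) (Ψ : G →+ (Fin m → ℝ)), Continuous Ψ ∧
      ∀ R : ℝ, IsCompact {x : G | ‖Ψ x‖ ≤ R} := by
  obtain ⟨F, hF⟩ := exists_fin U hU hU0 hs
  obtain ⟨m, a, ⟨V, hV, hVa⟩, Y, hY, hYF⟩ := exists_disc F
  have hdec : ∀ x : G, ∃ n : Fin m → ℤ, x - lin a n ∈ Y + U := by
    intro x
    obtain ⟨f, hf, u, hu, rfl⟩ := hF x (by rw [hgen]; exact AddSubgroup.mem_top x)
    obtain ⟨n, hn⟩ := hYF f hf
    refine ⟨n, f - lin a n, hn, u, hu, ?_⟩
    show f - lin a n + u = _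
    abel
  choose N hN using hdec
  have hY2 : IsCompact (Y + U) := hY.add hU
  have hbd : ∀ {C : Set G}, IsCompact C → ∃ B : ℝ, ∀ n : Fin m → ℤ, lin a n ∈ C →
      ‖(fun j => (n j : ℝ))‖ ≤ B := by
    intro C hC
    have hfin := (fin_lin hV hVa hC).image (fun n : Fin m → ℤ => ‖(fun j => (n j : ℝ))‖)
    obtain ⟨B, hB⟩ := hfin.bddAbove
    exact ⟨B, fun n hn => hB ⟨n, hn, rfl⟩⟩
  have hY3 : IsCompact ((Y + U) + (Y + U) - (Y + U))  := by
    rw [sub_eq_add_neg]; exact (hY2.add hY2).add hY2.neg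
  obtain ⟨B, hB⟩ := hbd hY3
  let q : G → (Fin m → ℝ) := fun x j => (N x j : ℝ)
  have hq : ∀ x y, ‖q (x + y) - q x - q y‖ ≤ B := by
    intro x y
    have h1 : lin a (N (x + y) - N x - N y) ∈ (Y + U) + (Y + U) - (Y + U) := by
      refine ⟨(x - lin a (N x)) + (y - lin a (N y)), Set.add_mem_add (hN x) (hN y),
        (x + y) - lin a (N (x + y)), hN _, ?_⟩
      show (x - lin a (N x)) + (y - lin a (N y)) - ((x + y) - lin a (N (x + y))) = _
      rw [map_sub, map_sub]; abel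
    have h2 := hB _ h1
    have h3 : (fun j => (((N (x + y) - N x - N y) j : ℤ) : ℝ)) = q (x + y) - q x - q y := by
      funext j
      simp [q]
    rw [h3] at h2
    exact h2
  obtain ⟨Ψ, hΨ⟩ := hyers q B hq
  have hUY : IsCompact (U - (Y + U)) := by
    rw [sub_eq_add_neg]; exact hU.add hY2.neg
  obtain ⟨B1, hB1⟩ := hbd hUY
  have hcont : Continuous Ψ := by
    apply cont_of_bdd Ψ hU0 (C := B + B1)
    intro x hx
    have h1 : lin a (N x) ∈ U - (Y + U) :=
      ⟨x, hx, x - lin a (N x), hN x, by show x - (x - lin a (N x)) = _; abel⟩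
    have h2 := hB1 _ h1
    have h3 := hΨ x
    calc ‖Ψ x‖ = ‖(Ψ x - q x) + q x‖ := by rw [sub_add_cancel]
      _ ≤ ‖Ψ x - q x‖ + ‖q x‖ := norm_add_le _ _
      _ ≤ B + B1 := add_le_add h3 h2
  refine ⟨m, Ψ, hcont, fun R => ?_⟩
  have hfin : {n : Fin m → ℤ | ‖(fun j => (n j : ℝ))‖ ≤ R + B}.Finite := by
    have h1 : {n : Fin m → ℤ | ‖(fun j => (n j : ℝ))‖ ≤ R + B} ⊆
        Set.pi Set.univ (fun _ : Fin m => Set.Icc (-⌈R + B⌉) ⌈R + B⌉) := by
      intro n hn j _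
      have hn' : ‖(fun j => (n j : ℝ))‖ ≤ R + B := hn
      have h2 : ‖(n j : ℝ)‖ ≤ R + B := le_trans (norm_le_pi_norm (fun j => (n j : ℝ)) j) hn'
      rw [Real.norm_eq_abs, abs_le] at h2
      have h3 : (R + B : ℝ) ≤ ⌈R + B⌉ := Int.le_ceil _
      constructor
      · have : (-(⌈R + B⌉ : ℝ)) ≤ (n j : ℝ) := by linarith [h2.1]
        exact_mod_cast this
      · have : (n j : ℝ) ≤ (⌈R + B⌉ : ℝ) := by linarith [h2.2]
        exact_mod_cast this
    exact (Set.Finite.pi' fun _ => Set.finite_Icc _ _).subset (by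
      intro n hn j
      exact h1 hn j (Set.mem_univ j))
  have hcomp : IsCompact ((Y + U) + (lin a '' {n : Fin m → ℤ | ‖(fun j => (n j : ℝ))‖ ≤ R + B})) :=
    hY2.add (hfin.image _).isCompact
  refine hcomp.of_isClosed_subset ?_ ?_
  · exact isClosed_le hcont.norm continuous_const
  · intro x hx
    refine ⟨x - lin a (N x), hN x, lin a (N x), ⟨N x, ?_, rfl⟩, by
      show x - lin a (N x) + lin a (N x) = x; abel⟩
    have hx' : ‖Ψ x‖ ≤ R := hx
    have h3 := hΨ x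
    show ‖q x‖ ≤ R + B
    calc ‖q x‖ = ‖Ψ x - (Ψ x - q x)‖ := by rw [sub_sub_cancel]
      _ ≤ ‖Ψ x‖ + ‖Ψ x - q x‖ := norm_sub_le _ _
      _ ≤ R + B := add_le_add hx' h3

end Pool.Agent.Q170.UC
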