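import Pool.Agent.Q170.UC.Weil

set_option autoImplicit false

/-! Structure of compactly generated locally compact abelian groups, part 2: a discrete
cocompact free subgroup. -/

open Topology Filter
open scoped Pointwise

namespace Pool.Agent.Q170.UC

universe u

section

variable {G : Type u} [AddCommGroup G] [TopologicalSpace G] [IsTopologicalAddGroup G]

/-- the homomorphism given by a finite tuple -/
def lin {m : ℕ} (a : Fin m → G) : (Fin m → ℤ) →+ G where
  toFun n := ∑ j, n j • a j
  map_zero' := by simp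
  map_add' n n' := by
    rw [← Finset.sum_add_distrib]
    exact Finset.sum_congr rfl fun j _ => add_smul _ _ _

omit [TopologicalSpace G] [IsTopologicalAddGroup G] in
lemma lin_apply {m : ℕ} (a : Fin m → G) (n : Fin m → ℤ) : lin a n = ∑ j, n j • a j := rfl

/-- a compactly generated group is `⟨F⟩ + U` with a finite set `F` -/
theorem exists_fin (U : Set G) (hU : IsCompact U) (hU0 : U ∈ 𝓝 (0 : G))
    (hs : ∀ x ∈ U, -x ∈ U) :
    ∃ F : Finset G, ∀ x ∈ AddSubgroup.closure U, ∃ f ∈ AddSubgroup.closure (F : Set G),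
      ∃ u ∈ U, x = f + u := by
  have hc : IsCompact (U + U) := hU.add hU
  obtain ⟨t, ht⟩ := hc.elim_finite_subcover
    (fun g : G => (fun v => g + v) '' interior U)
    (fun g => (isOpenMap_add_left g) _ isOpen_interior)
    (by
      intro y _
      exact Set.mem_iUnion.2 ⟨y, 0, mem_interior_iff_mem_nhds.2 hU0, by simp⟩)
  refine ⟨t, fun x hx => ?_⟩
  have hadd : ∀ x y : G, (∃ f ∈ AddSubgroup.closure (t : Set G), ∃ u ∈ U, x = f + u) → y ∈ U →
      ∃ f ∈ AddSubgroup.closure (t : Set G), ∃ u ∈ U, x + y = f + u := by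
    rintro x y ⟨f, hf, u, hu, rfl⟩ hy
    have h1 := ht (Set.add_mem_add hu hy)
    rw [Set.mem_iUnion₂] at h1
    obtain ⟨g, hg, v, hv, hgv⟩ := h1
    refine ⟨f + g, add_mem hf (AddSubgroup.subset_closure hg), v, interior_subset hv, ?_⟩
    have : g + v = u + y := hgv
    rw [add_assoc, add_assoc, this]
  refine AddSubgroup.closure_induction_right (p := fun x _ =>
    ∃ f ∈ AddSubgroup.closure (t : Set G), ∃ u ∈ U, x = f + u) ?_ ?_ ?_ hx
  · exact ⟨0, zero_mem _, 0, mem_of_mem_nhds hU0, by simp⟩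
  · intro x _ y hy h
    exact hadd x y h hy
  · intro x _ y hy h
    exact hadd x (-y) h (hs y hy)

/-- a finitely generated subgroup contains a discrete free subgroup, up to a compact set -/
theorem exists_disc [LocallyCompactSpace G] (F : Finset G) :
    ∃ (m : ℕ) (a : Fin m → G),
      (∃ V ∈ 𝓝 (0 : G), ∀ n : Fin m → ℤ, lin a n ∈ V → n = 0) ∧
      ∃ Y : Set G, IsCompact Y ∧ ∀ g ∈ AddSubgroup.closure (F : Set G),
        ∃ n : Fin m → ℤ, g - lin a n ∈ Y := by
  classical
  induction F using Finset.induction_on with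
  | empty =>
    refine ⟨0, Fin.elim0, ⟨Set.univ, Filter.univ_mem, fun n _ => Subsingleton.elim _ _⟩,
      {0}, isCompact_singleton, ?_⟩
    intro g hg
    have : g = 0 := by simpa using hg
    refine ⟨0, ?_⟩
    rw [this, map_zero, sub_zero]; rfl
  | insert x F hx ih =>
    obtain ⟨m, a, ⟨V, hV, hVa⟩, Y, hY, hYF⟩ := ih
    have hdec : ∀ g ∈ AddSubgroup.closure ((insert x F : Finset G) : Set G),
        ∃ n : ℤ, ∃ f ∈ AddSubgroup.closure (F : Set G), g = n • x + f := by
      intro g hg
      rw [Finset.coe_insert, Set.insert_eq, AddSubgroup.closure_union,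
        AddSubgroup.mem_sup] at hg
      obtain ⟨y, hy, z, hz, rfl⟩ := hg
      rw [AddSubgroup.mem_closure_singleton] at hy
      obtain ⟨n, rfl⟩ := hy
      exact ⟨n, z, hz, rfl⟩
    by_cases hcase : ∀ V ∈ 𝓝 (0 : G), ∃ n : ℤ, n ≠ 0 ∧ ∃ d ∈ (lin a).range, n • x - d ∈ V
    · obtain ⟨Y', hY', hYn⟩ := weil_rel (lin a).range x hcase
      refine ⟨m, a, ⟨V, hV, hVa⟩, Y + Y', hY.add hY', fun g hg => ?_⟩
      obtain ⟨n, f, hf, rfl⟩ := hdec g hg
      obtain ⟨n1, h1⟩ := hYF f hf
      obtain ⟨d, ⟨n2, rfl⟩, h2⟩ := hYn n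
      refine ⟨n1 + n2, f - lin a n1, h1, n • x - lin a n2, h2, ?_⟩
      show f - lin a n1 + (n • x - lin a n2) = _
      rw [map_add]; abel
    · push Not at hcase
      obtain ⟨V1, hV1, hV1x⟩ := hcase
      refine ⟨m + 1, Fin.cons x a, ⟨V ∩ V1, Filter.inter_mem hV hV1, ?_⟩, Y, hY, ?_⟩
      · rintro n ⟨hn1, hn2⟩
        have hsplit : lin (Fin.cons x a : Fin (m + 1) → G) n
            = n 0 • x + lin a (fun j => n j.succ) := by
          rw [lin_apply, Fin.sum_univ_succ, lin_apply]
          simp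
        rw [hsplit] at hn1 hn2
        have h0 : n 0 = 0 := by
          by_contra h0
          refine hV1x (n 0) h0 (lin a (-(fun j => n j.succ))) ⟨_, rfl⟩ ?_
          rw [map_neg, sub_neg_eq_add]; exact hn2
        rw [h0, zero_smul, zero_add] at hn1
        have h1 := hVa _ hn1
        funext j
        refine Fin.cases h0 (fun j => ?_) j
        exact congrFun h1 j
      · intro g hg
        obtain ⟨n, f, hf, rfl⟩ := hdec g hg
        obtain ⟨n1, h1⟩ := hYF f hf
        refine ⟨Fin.cons n n1, ?_⟩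
        have hsplit : lin (Fin.cons x a : Fin (m + 1) → G) (Fin.cons n n1)
            = n • x + lin a n1 := by
          rw [lin_apply, Fin.sum_univ_succ, lin_apply]
          simp
        rw [hsplit]
        have : n • x + f - (n • x + lin a n1) = f - lin a n1 := by abel
        rw [this]; exact h1

/-- only finitely many elements of the lattice lie in a compact set -/
theorem fin_lin {m : ℕ} {a : Fin m → G} {V : Set G} (hV : V ∈ 𝓝 (0 : G))
    (hVa : ∀ n : Fin m → ℤ, lin a n ∈ V → n = 0) {C : Set G} (hC : IsCompact C) :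
    {n : Fin m → ℤ | lin a n ∈ C}.Finite := by
  obtain ⟨W, hW, hWV⟩ := exists_nhds_half_neg hV
  obtain ⟨t, ht⟩ := hC.elim_finite_subcover
    (fun g : G => (fun v => g + v) '' interior W)
    (fun g => (isOpenMap_add_left g) _ isOpen_interior)
    (by
      intro y _
      exact Set.mem_iUnion.2 ⟨y, 0, mem_interior_iff_mem_nhds.2 hW, by simp⟩)
  have h1 : {n : Fin m → ℤ | lin a n ∈ C} ⊆
      ⋃ g ∈ t, {n : Fin m → ℤ | lin a n ∈ (fun v => g + v) '' interior W} := by
    intro n hn
    have := ht hn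
    rw [Set.mem_iUnion₂] at this
    obtain ⟨g, hg, h⟩ := this
    exact Set.mem_iUnion₂.2 ⟨g, hg, h⟩
  refine Set.Finite.subset (t.finite_toSet.biUnion fun g _ => ?_) h1
  apply Set.Subsingleton.finite
  rintro n ⟨v, hv, hnv⟩ n' ⟨v', hv', hnv'⟩
  have h2 : lin a (n - n') = v - v' := by
    rw [map_sub]
    have e1 : g + v = lin a n := hnv
    have e2 : g + v' = lin a n' := hnv'
    rw [← e1, ← e2]; abel
  have h3 := hVa (n - n') (by
    rw [h2]; exact hWV _ (interior_subset hv) _ (interior_subset hv'))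
  exact sub_eq_zero.1 h3

end

end Pool.Agent.Q170.UC
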