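import Pool.Agent.Q170.UC.Grow

set_option autoImplicit false

/-! Upper continuity of the algebraic entropy. -/

open Topology Filter MeasureTheory
open scoped Pointwise

namespace Pool.Agent.Q170.UC

universe u v

section

variable {G : Type u} [AddCommGroup G]

lemma restr_coe (φ : G →+ G) (B : AddSubgroup G) (h : ∀ x ∈ B, φ x ∈ B) (x : B) :
    ((restr φ B h x : B) : G) = φ x := rfl

lemma iter_restr (φ : G →+ G) (B : AddSubgroup G) (h : ∀ x ∈ B, φ x ∈ B) (n : ℕ) (x : B) :
    (((⇑(restr φ B h))^[n] x : B) : G) = (⇑φ)^[n] x := by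
  induction n with
  | zero => rfl
  | succ n ih => rw [Function.iterate_succ_apply', Function.iterate_succ_apply', restr_coe, ih]

/-- trajectories in a subgroup -/
lemma traj_restr {φ : G →+ G} {B : AddSubgroup G} {h : ∀ x ∈ B, φ x ∈ B} {C : Set B} {n : ℕ}
    {x : B} : x ∈ traj (restr φ B h) C n ↔ (x : G) ∈ traj φ ((↑) '' C) n := by
  constructor
  · intro hx
    obtain ⟨c, hc, rfl⟩ := mem_traj.1 hx
    refine mem_traj.2 ⟨fun j => (c j : G), fun j hj => ⟨c j, hc j hj, rfl⟩, ?_⟩
    rw [AddSubgroup.val_finsetSum]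
    exact Finset.sum_congr rfl fun j _ => (iter_restr φ B h j (c j)).symm
  · intro hx
    obtain ⟨c, hc, hcx⟩ := mem_traj.1 hx
    have h1 : ∀ j, ∃ d : B, j < n → (d ∈ C ∧ (d : G) = c j) := by
      intro j
      by_cases hj : j < n
      · obtain ⟨d, hd, hdc⟩ := hc j hj
        exact ⟨d, fun _ => ⟨hd, hdc⟩⟩
      · exact ⟨0, fun h => absurd h hj⟩
    choose d hd using h1
    refine mem_traj.2 ⟨d, fun j hj => (hd j hj).1, ?_⟩
    apply Subtype.ext
    rw [AddSubgroup.val_finsetSum, ← hcx]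
    refine Finset.sum_congr rfl fun j hj => ?_
    rw [iter_restr, (hd j (Finset.mem_range.1 hj)).2]

end

/-- comparison of exponential growth rates -/
lemma limsup_le_of_mul {a b : ℕ → ℝ} {M : ℝ} (hM : 0 < M) (ha : ∀ᶠ n in atTop, 0 < a n)
    (hab : ∀ᶠ n in atTop, a n ≤ M * b n) :
    limsup (fun n : ℕ => ((Real.log (a n) / n : ℝ) : EReal)) atTop ≤
      limsup (fun n : ℕ => ((Real.log (b n) / n : ℝ) : EReal)) atTop := by
  have h1 : Tendsto (fun n : ℕ => ((Real.log M / n : ℝ) : EReal)) atTop (𝓝 0) := by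
    have h2 : Tendsto (fun n : ℕ => (Real.log M / n : ℝ)) atTop (𝓝 0) :=
      tendsto_const_div_atTop_nhds_zero_nat _
    exact (continuous_coe_real_ereal.tendsto 0).comp h2
  have h2 : limsup (fun n : ℕ => ((Real.log M / n : ℝ) : EReal)) atTop = 0 := h1.limsup_eq
  calc _ ≤ limsup ((fun n : ℕ => ((Real.log (b n) / n : ℝ) : EReal))
        + fun n : ℕ => ((Real.log M / n : ℝ) : EReal)) atTop := by
        refine limsup_le_limsup ?_ (by isBoundedDefault) (by isBoundedDefault)
        · filter_upwards [ha, hab, eventually_gt_atTop 0] with n han hn hn0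
          have hb : 0 < b n := by
            by_contra hb
            push Not at hb
            have : M * b n ≤ 0 := mul_nonpos_of_nonneg_of_nonpos hM.le hb
            linarith
          have h3 : Real.log (a n) ≤ Real.log (b n) + Real.log M := by
            calc _ ≤ Real.log (M * b n) := Real.log_le_log han hn
              _ = _ := by rw [Real.log_mul hM.ne' hb.ne', add_comm]
          show ((Real.log (a n) / n : ℝ) : EReal) ≤ ((Real.log (b n) / n : ℝ) : EReal)
            + ((Real.log M / n : ℝ) : EReal)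
          rw [← EReal.coe_add, EReal.coe_le_coe_iff, ← add_div]
          have hn1 : (0 : ℝ) < n := by exact_mod_cast hn0
          exact div_le_div_of_nonneg_right h3 hn1.le
    _ ≤ limsup (fun n : ℕ => ((Real.log (b n) / n : ℝ) : EReal)) atTop
        + limsup (fun n : ℕ => ((Real.log M / n : ℝ) : EReal)) atTop := by
        apply EReal.limsup_add_le
        · right; rw [h2]; exact EReal.zero_ne_top
        · right; rw [h2]; exact EReal.zero_ne_bot
    _ = _ := by rw [h2, add_zero]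

section

variable {G : Type u} [AddCommGroup G] [TopologicalSpace G] [IsTopologicalAddGroup G]
  [MeasurableSpace G] [BorelSpace G]

lemma measure_translate (μ : Measure G) [μ.IsAddLeftInvariant] (x : G) (S : Set G) :
    μ {y : G | y - x ∈ S} = μ S := by
  have h1 : {y : G | y - x ∈ S} = (fun y => -x + y) ⁻¹' S := by
    ext y
    simp only [Set.mem_ofPred_eq, Set.mem_preimage]
    rw [sub_eq_neg_add]
  rw [h1, measure_preimage_add]

/-- covering bound -/
lemma cover_bound (μ : Measure G) [μ.IsAddLeftInvariant] {T S : Set G} {X : Finset G}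
    (h : ∀ y ∈ T, ∃ x ∈ X, y - x ∈ S) : μ T ≤ X.card * μ S := by
  calc μ T ≤ μ (⋃ x ∈ X, {y : G | y - x ∈ S}) := by
        apply measure_mono
        intro y hy
        obtain ⟨x, hx, hxy⟩ := h y hy
        exact Set.mem_iUnion₂.2 ⟨x, hx, hxy⟩
    _ ≤ ∑ x ∈ X, μ {y : G | y - x ∈ S} := measure_biUnion_finset_le _ _
    _ = ∑ x ∈ X, μ S := Finset.sum_congr rfl fun x _ => measure_translate μ x S
    _ = X.card * μ S := by rw [Finset.sum_const, nsmul_eq_mul]

/-- packing bound -/
lemma pack_bound [T2Space G] (μ : Measure G) [μ.IsAddLeftInvariant] {T S : Set G} {X : Finset G}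
    (hS : IsCompact S) (hT : ∀ x ∈ X, ∀ s ∈ S, x + s ∈ T)
    (hd : ∀ x ∈ X, ∀ x' ∈ X, x - x' ∈ S - S → x = x') : X.card * μ S ≤ μ T := by
  have hcl : IsClosed S := hS.isClosed
  calc (X.card : ENNReal) * μ S = ∑ x ∈ X, μ S := by rw [Finset.sum_const, nsmul_eq_mul]
    _ = ∑ x ∈ X, μ {y : G | y - x ∈ S} :=
        Finset.sum_congr rfl fun x _ => (measure_translate μ x S).symm
    _ = μ (⋃ x ∈ X, {y : G | y - x ∈ S}) := by
        symm
        apply measure_biUnion_finset
        · intro x hx x' hx' hne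
          rw [Function.onFun, Set.disjoint_left]
          intro y hy hy'
          apply hne
          apply hd x hx x' hx'
          exact ⟨y - x', hy', y - x, hy, by show y - x' - (y - x) = x - x'; abel⟩
        · intro x _
          have hc : Continuous (fun y : G => y - x) := by fun_prop
          exact (hcl.preimage hc).measurableSet
    _ ≤ μ T := by
        apply measure_mono
        intro y hy
        obtain ⟨x, hx, hxy⟩ := Set.mem_iUnion₂.1 hy
        have := hT x hx _ hxy
        rwa [add_sub_cancel] at this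

/-- the trajectories of compact neighbourhoods have finite positive measure -/
lemma traj_pos (μ : Measure G) [μ.IsAddHaarMeasure] {φ : G →+ G} (hφ : Continuous φ) {C : Set G}
    (hC : IsCompact C) (hC0 : C ∈ 𝓝 (0 : G)) {n : ℕ} (hn : 1 ≤ n) :
    0 < (μ (traj φ C n)).toReal ∧ μ (traj φ C n) ≠ ⊤ := by
  have h1 : μ (traj φ C n) ≠ ⊤ := (isCompact_traj hφ hC n).measure_lt_top.ne
  refine ⟨ENNReal.toReal_pos ?_ h1, h1⟩
  have h2 : C ⊆ traj φ C n := by
    intro x hx
    refine mem_traj.2 ⟨fun j => if j = 0 then x else 0, fun j _ => ?_, ?_⟩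
    · show (if j = 0 then x else 0) ∈ C
      split_ifs
      · exact hx
      · exact mem_of_mem_nhds hC0
    · obtain ⟨m, rfl⟩ : ∃ m, n = m + 1 := ⟨n - 1, by omega⟩
      rw [Finset.sum_range_succ']
      simp
  have h3 : 0 < μ C := Measure.measure_pos_of_mem_nhds μ hC0
  exact (lt_of_lt_of_le h3 (measure_mono h2)).ne'

end

/-- the entropy of a restriction is not larger -/
theorem mono_part {G : Type u} [AddCommGroup G] [TopologicalSpace G] [IsTopologicalAddGroup G]
    [LocallyCompactSpace G] [T2Space G] [MeasurableSpace G] [BorelSpace G]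
    (μ : Measure G) [μ.IsAddHaarMeasure] {φ : G →+ G} (hφ : Continuous φ)
    (B : AddSubgroup G) (hB : IsClosed (B : Set G)) (hinv : ∀ x ∈ B, φ x ∈ B)
    (ν : Measure B) [ν.IsAddHaarMeasure] (C : Set B) (hC : IsCompact C)
    (hC0 : C ∈ 𝓝 (0 : B)) :
    ∃ D : Set G, IsCompact D ∧ D ∈ 𝓝 (0 : G) ∧
      entropyOn ν (restr φ B hinv) C ≤ entropyOn μ φ D := by
  classical
  obtain ⟨W, hWc, hW0⟩ := exists_compact_mem_nhds (0 : G)
  have hemb : IsClosedEmbedding ((↑) : B → G) := hB.isClosedEmbedding_subtypeVal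
  have hres : Continuous (restr φ B hinv) :=
    Continuous.subtype_mk (hφ.comp continuous_subtype_val) _
  let C' : Set G := (↑) '' C
  have hC' : IsCompact C' := hC.image continuous_subtype_val
  have hWW : IsCompact (W - W) := by rw [sub_eq_add_neg]; exact hWc.add hWc.neg
  have h0W : (0 : G) ∈ W := mem_of_mem_nhds hW0
  have hWW0 : W - W ∈ 𝓝 (0 : G) := Filter.mem_of_superset hW0 fun w hw =>
    ⟨w, hw, 0, h0W, by show w - 0 = w; rw [sub_zero]⟩
  have hpre : IsCompact (((↑) : B → G) ⁻¹' (W - W)) := hemb.isCompact_preimage hWW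
  have h0C' : (0 : G) ∈ C' := ⟨0, mem_of_mem_nhds hC0, rfl⟩
  have hD0 : C' + W ∈ 𝓝 (0 : G) := Filter.mem_of_superset hW0 fun w hw =>
    ⟨0, h0C', w, hw, by show 0 + w = w; rw [zero_add]⟩
  refine ⟨C' + W, hC'.add hWc, hD0, ?_⟩
  have hp1 : 0 < μ W := Measure.measure_pos_of_mem_nhds μ hW0
  have hp2 : μ W ≠ ⊤ := hWc.measure_lt_top.ne
  have hp3 : ν (((↑) : B → G) ⁻¹' (W - W)) ≠ ⊤ := hpre.measure_lt_top.ne
  have hp4 : 0 < ν (((↑) : B → G) ⁻¹' (W - W)) :=
    Measure.measure_pos_of_mem_nhds (x := (0 : B)) ν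
      (hemb.continuous.continuousAt (by simpa using hWW0))
  have hW1 : 0 < (μ W).toReal := ENNReal.toReal_pos hp1.ne' hp2
  have hN1 : 0 < (ν (((↑) : B → G) ⁻¹' (W - W))).toReal := ENNReal.toReal_pos hp4.ne' hp3
  apply limsup_le_of_mul (M := (ν (((↑) : B → G) ⁻¹' (W - W))).toReal / (μ W).toReal)
    (div_pos hN1 hW1)
  · filter_upwards [eventually_ge_atTop 1] with n hn
    exact (traj_pos ν hres hC hC0 hn).1
  · filter_upwards [eventually_ge_atTop 1] with n hn
    obtain ⟨X, hXZ, hXs, hXc⟩ := exists_sep (isCompact_traj hφ hC' n) hWW0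
    have hX' : ∀ x ∈ X, ∃ b : B, (b : G) = x := by
      intro x hx
      obtain ⟨c, hc, rfl⟩ := mem_traj.1 (hXZ x hx)
      have h1 : ∀ j < n, (⇑φ)^[j] (c j) ∈ B := by
        intro j hj
        obtain ⟨b, -, hb⟩ := hc j hj
        have := iter_restr φ B hinv j b
        have hb' : (b : G) = c j := hb
        rw [← hb', ← this]
        exact ((⇑(restr φ B hinv))^[j] b).2
      exact ⟨⟨_, sum_mem fun j hj => h1 j (Finset.mem_range.1 hj)⟩, rfl⟩
    let XB : Finset B := X.attach.image (fun x => (hX' x.1 x.2).choose)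
    have hXB : ∀ x ∈ X, ∃ b ∈ XB, (b : G) = x := by
      intro x hx
      exact ⟨_, Finset.mem_image.2 ⟨⟨x, hx⟩, Finset.mem_attach _ _, rfl⟩,
        (hX' x hx).choose_spec⟩
    have hcard : XB.card ≤ X.card := le_trans Finset.card_image_le (by rw [Finset.card_attach])
    have hcov : ν (traj (restr φ B hinv) C n) ≤
        X.card * ν (((↑) : B → G) ⁻¹' (W - W)) := by
      refine le_trans (cover_bound ν (X := XB) (S := ((↑) : B → G) ⁻¹' (W - W)) ?_) ?_
      · intro y hy
        obtain ⟨x, hx, hxy⟩ := hXc _ (traj_restr.1 hy)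
        obtain ⟨b, hb, rfl⟩ := hXB x hx
        refine ⟨b, hb, ?_⟩
        show ((y - b : B) : G) ∈ W - W
        rw [AddSubgroup.coe_sub]
        rcases hxy with h | h
        · exact h
        · obtain ⟨w, hw, w', hw', hww⟩ := h
          refine ⟨w', hw', w, hw, ?_⟩
          have h2 : w - w' = (b : G) - y := hww
          show w' - w = (y : G) - b
          rw [← neg_sub, h2]; abel
      · gcongr
    have hpack : X.card * μ W ≤ μ (traj φ (C' + W) n) := by
      apply pack_bound μ hWc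
      · intro x hx w hw
        rw [traj_add]
        refine ⟨x, hXZ x hx, w, ?_, rfl⟩
        refine mem_traj.2 ⟨fun j => if j = 0 then w else 0, fun j _ => ?_, ?_⟩
        · show (if j = 0 then w else 0) ∈ W
          split_ifs
          · exact hw
          · exact h0W
        · obtain ⟨m, rfl⟩ : ∃ m, n = m + 1 := ⟨n - 1, by omega⟩
          rw [Finset.sum_range_succ']
          simp
      · exact hXs
    have hfin := (traj_pos μ hφ (hC'.add hWc) hD0 hn).2
    have r1 : (ν (traj (restr φ B hinv) C n)).toReal ≤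
        X.card * (ν (((↑) : B → G) ⁻¹' (W - W))).toReal := by
      have := ENNReal.toReal_mono (ENNReal.mul_ne_top (ENNReal.natCast_ne_top _) hp3) hcov
      rwa [ENNReal.toReal_mul, ENNReal.toReal_natCast] at this
    have r2 : X.card * (μ W).toReal ≤ (μ (traj φ (C' + W) n)).toReal := by
      have := ENNReal.toReal_mono hfin hpack
      rwa [ENNReal.toReal_mul, ENNReal.toReal_natCast] at this
    calc (ν (traj (restr φ B hinv) C n)).toReal
        ≤ X.card * (ν (((↑) : B → G) ⁻¹' (W - W))).toReal := r1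
      _ = (ν (((↑) : B → G) ⁻¹' (W - W))).toReal / (μ W).toReal * (X.card * (μ W).toReal) := by
          field_simp
      _ ≤ _ := mul_le_mul_of_nonneg_left r2 (div_pos hN1 hW1).le

lemma real_of_le {a b : ENNReal} {N : ℕ} (hb : b ≠ ⊤) (h : a ≤ N * b) :
    a.toReal ≤ N * b.toReal := by
  have h2 := ENNReal.toReal_mono (ENNReal.mul_ne_top (ENNReal.natCast_ne_top _) hb) h
  rwa [ENNReal.toReal_mul, ENNReal.toReal_natCast] at h2

lemma real_of_ge {a b : ENNReal} {N : ℕ} (hb : b ≠ ⊤) (h : N * a ≤ b) :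
    N * a.toReal ≤ b.toReal := by
  have h2 := ENNReal.toReal_mono hb h
  rwa [ENNReal.toReal_mul, ENNReal.toReal_natCast] at h2

lemma fin_arith {a u v b : ℝ} {X c A : ℕ} (hv : 0 < v) (hu : 0 ≤ u)
    (h1 : a ≤ ((X * (c * A) : ℕ) : ℝ) * u) (h2 : ((X * A : ℕ) : ℝ) * v ≤ b) :
    a ≤ ((c : ℝ) + 1) * u / v * b := by
  push_cast at h1 h2
  have h3 : (0 : ℝ) ≤ (c + 1) * u / v := by positivity
  have h4 := mul_le_mul_of_nonneg_left h2 h3
  have h5 : ((c : ℝ) + 1) * u / v * (X * A * v) = X * ((c + 1) * A) * u := by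
    field_simp
  rw [h5] at h4
  have h6 : (X : ℝ) * (c * A) * u ≤ X * ((c + 1) * A) * u := by
    have : (c : ℝ) ≤ c + 1 := by linarith
    gcongr
  linarith

/-- **Compact neighbourhoods are seen by all closed invariant subgroups which contain a
suitable finite set.** -/
theorem key_part {G : Type u} [AddCommGroup G] [TopologicalSpace G] [IsTopologicalAddGroup G]
    [LocallyCompactSpace G] [T2Space G] [MeasurableSpace G] [BorelSpace G]
    (μ : Measure G) [μ.IsAddHaarMeasure] {φ : G →+ G} (hφ : Continuous φ)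
    (C : Set G) (hC : IsCompact C) (hC0 : C ∈ 𝓝 (0 : G)) :
    ∃ F' : Finset G, ∀ (B : AddSubgroup G), IsClosed (B : Set G) →
      ∀ (hinv : ∀ x ∈ B, φ x ∈ B), (∀ f ∈ F', f ∈ B) →
      ∀ (ν : Measure B), ν.IsAddHaarMeasure → ∃ E : Set B, IsCompact E ∧ E ∈ 𝓝 (0 : B) ∧
        entropyOn μ φ C ≤ entropyOn ν (restr φ B hinv) E := by
  classical
  obtain ⟨H, K, hH, hKH, hK, hS, F, hF⟩ := structure_lca G
  obtain ⟨n0, hn0, R, hRne, hRK, hRc, hRs⟩ := exists_reps hφ hH hK hS
  obtain ⟨c, hc⟩ := upper_cosets hφ hH hK hS hRc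
  obtain ⟨t, htC, ht⟩ := hC.elim_nhds_subcover (fun f : G => {x : G | x - f ∈ H}) (by
    intro r _
    have hcont : ContinuousAt (fun x : G => x - r) r := by fun_prop
    apply hcont
    show (H : Set G) ∈ 𝓝 (r - r)
    rw [sub_self]
    exact hH.mem_nhds H.zero_mem)
  obtain ⟨V0, hV0, hV0H, hV0c⟩ := local_compact_nhds (hH.mem_nhds H.zero_mem)
  have h0V : (0 : G) ∈ V0 := mem_of_mem_nhds hV0
  have hHcl : IsClosed (H : Set G) := H.isClosed_of_isOpen hH
  have hVV : IsCompact (V0 - V0) := by rw [sub_eq_add_neg]; exact hV0c.add hV0c.neg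
  have hCC : IsCompact (C - C) := by rw [sub_eq_add_neg]; exact hC.add hC.neg
  have hD0 : IsCompact ((C - C) ∩ H) := hCC.inter_right hHcl
  let U1 : Set G := (V0 - V0) + K
  have hU1c : IsCompact U1 := hVV.add hK
  have hU1H : ∀ x ∈ U1, x ∈ H := by
    rintro x ⟨y, ⟨v, hv, v', hv', rfl⟩, k, hk, rfl⟩
    exact H.add_mem (H.sub_mem (hV0H hv) (hV0H hv')) (hKH hk)
  have hU1neg : ∀ x ∈ U1, -x ∈ U1 := by
    rintro x ⟨y, ⟨v, hv, v', hv', rfl⟩, k, hk, rfl⟩
    refine ⟨v' - v, ⟨v', hv', v, hv, rfl⟩, -k, K.neg_mem hk, ?_⟩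
    show v' - v + -k = -(v - v' + k)
    abel
  have hU1K : ∀ x ∈ U1, ∀ k ∈ K, x + k ∈ U1 := by
    rintro x ⟨y, hy, k, hk, rfl⟩ k' hk'
    exact ⟨y, hy, k + k', K.add_mem hk hk', by show y + (k + k') = y + k + k'; abel⟩
  have hU10 : U1 ∈ 𝓝 (0 : G) := Filter.mem_of_superset hV0 fun v hv =>
    ⟨v, ⟨v, hv, 0, h0V, by show v - 0 = v; rw [sub_zero]⟩, 0, K.zero_mem,
      by show v + 0 = v; rw [add_zero]⟩
  refine ⟨F ∪ R ∪ t, fun B hB hinv hFB ν hν => ?_⟩
  have hFB1 : ∀ f ∈ F, f ∈ B := fun f hf =>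
    hFB f (Finset.mem_union_left _ (Finset.mem_union_left _ hf))
  have hFB2 : ∀ f ∈ R, f ∈ B := fun f hf =>
    hFB f (Finset.mem_union_left _ (Finset.mem_union_right _ hf))
  have hFB3 : ∀ f ∈ t, f ∈ B := fun f hf => hFB f (Finset.mem_union_right _ hf)
  have hHB := hF B hB hFB1
  let P : Set G := ((t : Set G) + ((((C - C) ∩ H) + (K : Set G)) ∩ B)) ∪ {0}
  have hPc : IsCompact P :=
    (t.finite_toSet.isCompact.add ((hD0.add hK).inter_right hB)).union isCompact_singleton
  have hPB : ∀ p ∈ P, p ∈ B := by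
    rintro p (⟨f, hf, b, ⟨-, hb⟩, rfl⟩ | hp)
    · exact B.add_mem (hFB3 f hf) hb
    · rw [Set.mem_singleton_iff] at hp
      rw [hp]; exact B.zero_mem
  have h0P : (0 : G) ∈ P := Or.inr rfl
  have hCP : C ⊆ P + K := by
    intro x hx
    have h1 := ht hx
    rw [Set.mem_iUnion₂] at h1
    obtain ⟨f, hf, h2⟩ := h1
    have h2' : x - f ∈ H := h2
    obtain ⟨b, hb, k, hk, hbk⟩ := AddSubgroup.mem_sup.1 (hHB h2')
    refine ⟨f + b, Or.inl ⟨f, hf, b, ⟨⟨x - f, ⟨⟨x, hx, f, htC f hf, rfl⟩, h2'⟩, -k,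
      K.neg_mem hk, ?_⟩, hb⟩, rfl⟩, k, hk, ?_⟩
    · show x - f + -k = b
      rw [← hbk]; abel
    · show f + b + k = x
      rw [add_assoc, hbk]; abel
  have hemb : IsClosedEmbedding ((↑) : B → G) := hB.isClosedEmbedding_subtypeVal
  have hres : Continuous (restr φ B hinv) :=
    Continuous.subtype_mk (hφ.comp continuous_subtype_val) _
  have hQc : IsCompact (P + (K : Set G) + V0) := (hPc.add hK).add hV0c
  have hQ0 : P + (K : Set G) + V0 ∈ 𝓝 (0 : G) := Filter.mem_of_superset hV0 fun v hv =>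
    ⟨0, ⟨0, h0P, 0, K.zero_mem, by show (0 : G) + 0 = 0; rw [add_zero]⟩, v, hv,
      by show 0 + v = v; rw [zero_add]⟩
  have hEc : IsCompact (((↑) : B → G) ⁻¹' (P + (K : Set G) + V0)) := hemb.isCompact_preimage hQc
  have hE0 : (((↑) : B → G) ⁻¹' (P + (K : Set G) + V0)) ∈ 𝓝 (0 : B) :=
    hemb.continuous.continuousAt (by simpa using hQ0)
  have hSc : IsCompact (((↑) : B → G) ⁻¹' V0) := hemb.isCompact_preimage hV0c
  have hS0 : (((↑) : B → G) ⁻¹' V0) ∈ 𝓝 (0 : B) :=
    hemb.continuous.continuousAt (by simpa using hV0)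
  refine ⟨_, hEc, hE0, ?_⟩
  have hu1 : 0 < (μ U1).toReal :=
    ENNReal.toReal_pos (Measure.measure_pos_of_mem_nhds μ hU10).ne' hU1c.measure_lt_top.ne
  have hv1 : 0 < (ν (((↑) : B → G) ⁻¹' V0)).toReal :=
    ENNReal.toReal_pos (Measure.measure_pos_of_mem_nhds ν hS0).ne' hSc.measure_lt_top.ne
  apply limsup_le_of_mul
    (M := ((c : ℝ) + 1) * (μ U1).toReal / (ν (((↑) : B → G) ⁻¹' V0)).toReal) (by positivity)
  · filter_upwards [eventually_ge_atTop 1] with n hn
    exact (traj_pos μ hφ hC hC0 hn).1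
  · filter_upwards [eventually_ge_atTop n0] with n hn
    obtain ⟨k, rfl⟩ : ∃ k, n = n0 + k := ⟨n - n0, by omega⟩
    set n := n0 + k with hndef
    have hn1 : 1 ≤ n := by omega
    have hL : IsCompact ((trK φ K n : AddSubgroup G) : Set G) := isCompact_traj hφ hK n
    have hN0 : U1 + (trK φ K n : Set G) ∈ 𝓝 (0 : G) := Filter.mem_of_superset hU10 fun v hv =>
      ⟨v, hv, 0, zero_mem _, by show v + 0 = v; rw [add_zero]⟩
    obtain ⟨X, hXZ, hXs, hXc⟩ := exists_sep (isCompact_traj hφ hPc n) hN0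
    obtain ⟨Bk, hBkc, hBk⟩ := hc k
    obtain ⟨Z, hZc, hZ, hZK⟩ := lower_cosets (φ := φ) (K := K) (K' := K ⊓ B) inf_le_left hn0
      (R := R) (fun r hr => ⟨hRK r hr, hFB2 r hr⟩) hRs k
    -- the upper bound
    have hup : μ (traj φ C n) ≤ ((X ×ˢ Bk).image fun p => p.1 + p.2).card * μ U1 := by
      apply cover_bound
      intro y hy
      have h1 : y ∈ traj φ P n + traj φ (K : Set G) n := by
        rw [← traj_add]; exact traj_mono φ hCP n hy
      obtain ⟨p, hp, l, hl, rfl⟩ := h1
      obtain ⟨x, hx, hpx⟩ := hXc p hp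
      have h2 : p - x ∈ U1 + (trK φ K n : Set G) := by
        rcases hpx with h | ⟨u, hu, l', hl', h⟩
        · exact h
        · refine ⟨-u, hU1neg u hu, -l', neg_mem hl', ?_⟩
          have h' : u + l' = x - p := h
          show -u + -l' = p - x
          rw [← neg_sub, ← h']; abel
      obtain ⟨u, hu, l', hl', hul⟩ := h2
      obtain ⟨b, hb, hbK⟩ := hBk (l + l') (add_mem (show l ∈ trK φ K n from hl) hl')
      refine ⟨x + b, Finset.mem_image.2 ⟨(x, b), Finset.mem_product.2 ⟨hx, hb⟩, rfl⟩, ?_⟩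
      have h3 : p + l - (x + b) = u + (l + l' - b) := by
        have h4 : u + l' = p - x := hul
        have h5 : p = u + l' + x := by rw [h4]; abel
        rw [h5]; abel
      show p + l - (x + b) ∈ U1
      rw [h3]
      exact hU1K u hu _ hbK
    have hcard1 : ((X ×ˢ Bk).image fun p => p.1 + p.2).card ≤ X.card * (c * R.card ^ k) := by
      calc _ ≤ (X ×ˢ Bk).card := Finset.card_image_le
        _ = X.card * Bk.card := Finset.card_product _ _
        _ ≤ _ := Nat.mul_le_mul_left _ hBkc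
    -- the lower bound
    have hXB : ∀ x ∈ X, x ∈ B := by
      intro x hx
      obtain ⟨d, hd, rfl⟩ := mem_traj.1 (hXZ x hx)
      refine sum_mem fun j hj => ?_
      have h1 := hPB _ (hd j (Finset.mem_range.1 hj))
      have := iter_restr φ B hinv j ⟨d j, h1⟩
      rw [← this]
      exact ((⇑(restr φ B hinv))^[j] _).2
    have hZB : ∀ z ∈ Z, z ∈ B := by
      intro z hz
      obtain ⟨d, hd, rfl⟩ := mem_traj.1 (hZ z hz)
      refine sum_mem fun j hj => ?_
      have h1 : d j ∈ B := (hd j (Finset.mem_range.1 hj)).2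
      have := iter_restr φ B hinv j ⟨d j, h1⟩
      rw [← this]
      exact ((⇑(restr φ B hinv))^[j] _).2
    have hZL : ∀ z ∈ Z, z ∈ trK φ K n := fun z hz => traj_mono φ inf_le_left n (hZ z hz)
    have hsep : ∀ x ∈ X, ∀ z ∈ Z, ∀ x' ∈ X, ∀ z' ∈ Z, (x + z) - (x' + z') ∈ V0 - V0 →
        x = x' ∧ z = z' := by
      rintro x hx z hz x' hx' z' hz' ⟨v, hv, v', hv', h⟩
      have h' : v - v' = (x + z) - (x' + z') := h
      have hxx : x = x' := by
        apply hXs x hx x' hx'
        refine ⟨v - v', ⟨v - v', ⟨v, hv, v', hv', rfl⟩, 0, K.zero_mem, add_zero _⟩,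
          z' - z, sub_mem (hZL z' hz') (hZL z hz), ?_⟩
        show v - v' + (z' - z) = x - x'
        rw [h']; abel
      subst hxx
      refine ⟨rfl, hZK z hz z' hz' ?_⟩
      have h2 : z - z' = v - v' := by rw [h']; abel
      apply hS (trK φ K n) hL
      refine ⟨(trK φ K n).sub_mem (hZL z hz) (hZL z' hz'), ?_⟩
      show z - z' ∈ H
      rw [h2]
      exact H.sub_mem (hV0H hv) (hV0H hv')
    let Y : Finset G := (X ×ˢ Z).image fun p => p.1 + p.2
    have hYcard : Y.card = X.card * R.card ^ k := by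
      rw [← hZc, ← Finset.card_product]
      apply Finset.card_image_of_injOn
      rintro ⟨x, z⟩ hp ⟨x', z'⟩ hp' h
      obtain ⟨hx, hz⟩ := Finset.mem_product.1 hp
      obtain ⟨hx', hz'⟩ := Finset.mem_product.1 hp'
      have h' : x + z = x' + z' := h
      have h2 := hsep x hx z hz x' hx' z' hz' (by
        rw [h', sub_self]
        exact ⟨0, h0V, 0, h0V, sub_zero _⟩)
      rw [h2.1, h2.2]
    have hYB : ∀ y ∈ Y, y ∈ B := by
      intro y hy
      obtain ⟨⟨x, z⟩, hp, rfl⟩ := Finset.mem_image.1 hy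
      obtain ⟨hx, hz⟩ := Finset.mem_product.1 hp
      exact B.add_mem (hXB x hx) (hZB z hz)
    have hYB' : (Y.subtype (· ∈ B)).card = Y.card := by
      rw [Finset.card_subtype, Finset.filter_true_of_mem hYB]
    have hlow : ((Y.subtype (· ∈ B)).card : ENNReal) * ν (((↑) : B → G) ⁻¹' V0) ≤
        ν (traj (restr φ B hinv) (((↑) : B → G) ⁻¹' (P + (K : Set G) + V0)) n) := by
      apply pack_bound ν hSc
      · intro y hy s hs
        rw [Finset.mem_subtype] at hy
        obtain ⟨⟨x, z⟩, hp, hxz⟩ := Finset.mem_image.1 hy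
        obtain ⟨hx, hz⟩ := Finset.mem_product.1 hp
        have hxz' : x + z = (y : G) := hxz
        rw [traj_restr, AddSubgroup.coe_add, ← hxz']
        obtain ⟨d, hd, hdx⟩ := mem_traj.1 (hXZ x hx)
        obtain ⟨e, he, hez⟩ := mem_traj.1 (hZ z hz)
        refine mem_traj.2 ⟨fun j => d j + e j + (if j = 0 then (s : G) else 0), ?_, ?_⟩
        · intro j hj
          have m1 : d j ∈ B := hPB _ (hd j hj)
          have m2 : e j ∈ B := (he j hj).2
          have m3 : (if j = 0 then (s : G) else 0) ∈ B := by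
            split_ifs
            · exact s.2
            · exact B.zero_mem
          refine ⟨⟨_, B.add_mem (B.add_mem m1 m2) m3⟩, ?_, rfl⟩
          refine ⟨d j + e j, ⟨d j, hd j hj, e j, (he j hj).1, rfl⟩, _, ?_, rfl⟩
          show (if j = 0 then (s : G) else 0) ∈ V0
          split_ifs
          · exact hs
          · exact h0V
        · have h1 : ∀ j, (⇑φ)^[j] (d j + e j + (if j = 0 then (s : G) else 0))
              = (⇑φ)^[j] (d j) + (⇑φ)^[j] (e j) + (⇑φ)^[j] (if j = 0 then (s : G) else 0) := by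
            intro j
            rw [iter_add, iter_add]
          rw [Finset.sum_congr rfl fun j _ => h1 j, Finset.sum_add_distrib,
            Finset.sum_add_distrib, hdx, hez]
          congr 1
          obtain ⟨m, hm⟩ : ∃ m, n = m + 1 := ⟨n - 1, by omega⟩
          rw [hm, Finset.sum_range_succ']
          simp
      · rintro y hy y' hy' ⟨s, hs, s', hs', hss⟩
        rw [Finset.mem_subtype] at hy hy'
        obtain ⟨⟨x, z⟩, hp, hxz⟩ := Finset.mem_image.1 hy
        obtain ⟨⟨x', z'⟩, hp', hxz'⟩ := Finset.mem_image.1 hy'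
        obtain ⟨hx, hz⟩ := Finset.mem_product.1 hp
        obtain ⟨hx', hz'⟩ := Finset.mem_product.1 hp'
        have e1 : x + z = (y : G) := hxz
        have e2 : x' + z' = (y' : G) := hxz'
        have e3 : ((s : G) - s') = (y : G) - y' := by
          have h1 : s - s' = y - y' := hss
          have := congrArg (fun b : B => (b : G)) h1
          simpa using this
        have h2 := hsep x hx z hz x' hx' z' hz' (by
          rw [e1, e2, ← e3]
          exact ⟨s, hs, s', hs', rfl⟩)
        apply Subtype.ext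
        rw [← e1, ← e2, h2.1, h2.2]
    have hfin : ν (traj (restr φ B hinv) (((↑) : B → G) ⁻¹' (P + (K : Set G) + V0)) n) ≠ ⊤ :=
      (traj_pos ν hres hEc hE0 hn1).2
    have r1 : (μ (traj φ C n)).toReal ≤ ((X.card * (c * R.card ^ k) : ℕ) : ℝ) * (μ U1).toReal := by
      refine real_of_le hU1c.measure_lt_top.ne (le_trans hup ?_)
      exact mul_le_mul_left (Nat.cast_le.2 hcard1) _
    have r2 : ((X.card * R.card ^ k : ℕ) : ℝ) * (ν (((↑) : B → G) ⁻¹' V0)).toReal ≤
        (ν (traj (restr φ B hinv) (((↑) : B → G) ⁻¹' (P + (K : Set G) + V0)) n)).toReal := by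
      rw [hYB', hYcard] at hlow
      exact real_of_ge hfin hlow
    exact fin_arith hv1 hu1.le r1 r2

end Pool.Agent.Q170.UC
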