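import Pool.Agent.Q170.UC.Hyers

set_option autoImplicit false

/-! Closed subgroups of finite-dimensional spaces are topologically finitely generated, and
the structure of locally compact abelian groups in the form used below. -/

open Topology Filter
open scoped Pointwise

namespace Pool.Agent.Q170.UC

universe u

/-- a non-discrete closed subgroup contains a line -/
theorem line_of_nondisc {V : Type} [NormedAddCommGroup V] [NormedSpace ℝ V]
    [FiniteDimensional ℝ V] (A : AddSubgroup V) (hA : IsClosed (A : Set V))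
    (hnd : ∀ ε > 0, ∃ v ∈ A, v ≠ 0 ∧ ‖v‖ < ε) : ∃ u : V, u ≠ 0 ∧ ∀ t : ℝ, t • u ∈ A := by
  haveI : ProperSpace V := FiniteDimensional.proper_real V
  choose v hvA hv0 hv using fun n : ℕ => hnd (1 / ((n : ℝ) + 1)) (by positivity)
  have hs : ∀ n, ‖v n‖⁻¹ • v n ∈ Metric.sphere (0 : V) 1 := by
    intro n
    have h0 : ‖v n‖ ≠ 0 := norm_ne_zero_iff.2 (hv0 n)
    rw [mem_sphere_zero_iff_norm, norm_smul, norm_inv, norm_norm, inv_mul_cancel₀ h0]
  obtain ⟨u, hu, φ, hφ, hlim⟩ := (isCompact_sphere (0 : V) 1).tendsto_subseq hs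
  refine ⟨u, ?_, fun t => ?_⟩
  · rintro rfl
    simp at hu
  · have hlim2 : Tendsto (fun k => t • (‖v (φ k)‖⁻¹ • v (φ k))) atTop (𝓝 (t • u)) :=
      hlim.const_smul t
    have hz : Tendsto (fun k => ((⌊t * ‖v (φ k)‖⁻¹⌋ : ℤ) : ℝ) • v (φ k)
        - t • (‖v (φ k)‖⁻¹ • v (φ k))) atTop (𝓝 0) := by
      apply squeeze_zero_norm (a := fun k : ℕ => 1 / ((k : ℝ) + 1))
      · intro k
        have h1 : ((⌊t * ‖v (φ k)‖⁻¹⌋ : ℤ) : ℝ) • v (φ k) - t • (‖v (φ k)‖⁻¹ • v (φ k))
            = (((⌊t * ‖v (φ k)‖⁻¹⌋ : ℤ) : ℝ) - t * ‖v (φ k)‖⁻¹) • v (φ k) := by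
          rw [sub_smul, smul_smul]
        rw [h1, norm_smul]
        have h2 : ‖((⌊t * ‖v (φ k)‖⁻¹⌋ : ℤ) : ℝ) - t * ‖v (φ k)‖⁻¹‖ ≤ 1 := by
          rw [Real.norm_eq_abs, abs_le]
          have e1 := Int.floor_le (t * ‖v (φ k)‖⁻¹)
          have e2 := Int.lt_floor_add_one (t * ‖v (φ k)‖⁻¹)
          constructor <;> linarith
        calc _ ≤ 1 * ‖v (φ k)‖ := mul_le_mul_of_nonneg_right h2 (norm_nonneg _)
          _ = ‖v (φ k)‖ := one_mul _
          _ ≤ 1 / ((φ k : ℝ) + 1) := (hv _).le
          _ ≤ 1 / ((k : ℝ) + 1) := by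
            have : (k : ℝ) ≤ φ k := by exact_mod_cast hφ.id_le k
            exact one_div_le_one_div_of_le (by positivity) (by linarith)
      · exact tendsto_one_div_add_atTop_nhds_zero_nat
    have hz2 : Tendsto (fun k => ((⌊t * ‖v (φ k)‖⁻¹⌋ : ℤ) : ℝ) • v (φ k)) atTop (𝓝 (t • u)) := by
      have := hz.add hlim2
      simpa using this
    refine hA.mem_of_tendsto hz2 (Filter.Eventually.of_forall fun k => ?_)
    show ((⌊t * ‖v (φ k)‖⁻¹⌋ : ℤ) : ℝ) • v (φ k) ∈ A
    rw [Int.cast_smul_eq_zsmul]
    exact A.zsmul_mem (hvA _) _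

/-- a closed subgroup of the line containing `1` and `√2` is everything -/
theorem eq_top_real (S : AddSubgroup ℝ) (hS : IsClosed (S : Set ℝ)) (h1 : (1 : ℝ) ∈ S)
    (h2 : √2 ∈ S) : ∀ t : ℝ, t ∈ S := by
  intro t
  rcases AddSubgroup.dense_or_cyclic S with h | ⟨a, ha⟩
  · have : closure (S : Set ℝ) = Set.univ := h.closure_eq
    rw [hS.closure_eq] at this
    have : t ∈ (S : Set ℝ) := by rw [this]; trivial
    exact this
  · exfalso
    rw [ha, AddSubgroup.mem_closure_singleton] at h1 h2
    obtain ⟨n, hn⟩ := h1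
    obtain ⟨k, hk⟩ := h2
    simp only [zsmul_eq_mul] at hn hk
    have hn0 : (n : ℝ) ≠ 0 := by
      rintro h
      rw [h, zero_mul] at hn
      exact zero_ne_one hn
    apply irrational_sqrt_two
    refine ⟨(k : ℚ) / n, ?_⟩
    push_cast
    rw [← hk]
    have : a = 1 / n := by field_simp; linarith
    rw [this]; ring

theorem top_fg : ∀ (n : ℕ) (V : Type) [NormedAddCommGroup V] [NormedSpace ℝ V]
    [FiniteDimensional ℝ V], Module.finrank ℝ V = n → ∀ A : AddSubgroup V,
    IsClosed (A : Set V) → ∃ F : Finset V, (∀ f ∈ F, f ∈ A) ∧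
      ∀ B : AddSubgroup V, IsClosed (B : Set V) → (∀ f ∈ F, f ∈ B) → A ≤ B := by
  classical
  intro n
  induction n using Nat.strong_induction_on with
  | _ n ih =>
    intro V _ _ _ hn A hA
    by_cases hnd : ∀ ε > 0, ∃ v ∈ A, v ≠ 0 ∧ ‖v‖ < ε
    · obtain ⟨u, hu0, hu⟩ := line_of_nondisc A hA hnd
      obtain ⟨W, hW⟩ := Submodule.exists_isCompl (Submodule.span ℝ {u})
      have huW : u ∉ W := by
        intro h
        have := hW.disjoint.le_bot (⟨Submodule.mem_span_singleton_self u, h⟩ :
          u ∈ Submodule.span ℝ {u} ⊓ W)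
        exact hu0 (by simpa using this)
      have hlt : Module.finrank ℝ W < n := by
        rw [← hn]
        apply Submodule.finrank_lt
        rintro rfl
        exact huW trivial
      obtain ⟨F', hF'A, hF'⟩ := ih _ hlt W rfl (A.comap (W.subtype : W →+ V))
        (hA.preimage W.subtypeL.continuous)
      refine ⟨(F'.image (fun w : W => (w : V))) ∪ {u, √2 • u}, ?_, ?_⟩
      · intro f hf
        rw [Finset.mem_union, Finset.mem_image, Finset.mem_insert, Finset.mem_singleton] at hf
        rcases hf with ⟨w, hw, rfl⟩ | rfl | rfl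
        · exact hF'A w hw
        · simpa using hu 1
        · exact hu _
      · intro B hB hFB a ha
        have huB : ∀ t : ℝ, t • u ∈ B := by
          intro t
          let S : AddSubgroup ℝ := B.comap ((LinearMap.toSpanSingleton ℝ V u : ℝ →ₗ[ℝ] V) : ℝ →+ V)
          have hS : IsClosed (S : Set ℝ) := by
            have hc : Continuous (fun t : ℝ => t • u) := by fun_prop
            exact hB.preimage hc
          have := eq_top_real S hS ?_ ?_ t
          · exact this
          · show (1 : ℝ) • u ∈ B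
            rw [one_smul]
            exact hFB _ (by simp)
          · exact hFB _ (by simp)
        have hdec : a ∈ Submodule.span ℝ {u} ⊔ W := by
          rw [hW.sup_eq_top]; trivial
        obtain ⟨s, hs, w, hw, rfl⟩ := Submodule.mem_sup.1 hdec
        obtain ⟨t, rfl⟩ := Submodule.mem_span_singleton.1 hs
        refine B.add_mem (huB t) ?_
        have hwA : w ∈ A := by
          have := A.sub_mem ha (hu t)
          rwa [add_sub_cancel_left] at this
        have := hF' (B.comap (W.subtype : W →+ V)) (hB.preimage W.subtypeL.continuous) ?_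
          (show (⟨w, hw⟩ : W) ∈ A.comap (W.subtype : W →+ V) from hwA)
        · exact this
        · intro f hf
          exact hFB _ (Finset.mem_union_left _ (Finset.mem_image_of_mem _ hf))
    · push Not at hnd
      obtain ⟨ε, hε, hmin⟩ := hnd
      haveI : DiscreteTopology (AddSubgroup.toIntSubmodule A) := by
        apply discreteTopology_of_isOpen_singleton_zero
        rw [Metric.isOpen_singleton_iff]
        refine ⟨ε, hε, fun y hy => ?_⟩
        by_contra h
        have h1 := hmin (y : V) y.2 (fun h0 => h (Subtype.ext h0))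
        rw [dist_zero_right] at hy
        have : ‖y‖ = ‖(y : V)‖ := rfl
        rw [this] at hy
        linarith
      have hfin : Module.Finite ℤ (AddSubgroup.toIntSubmodule A) := inferInstance
      obtain ⟨S, hS⟩ := Module.Finite.iff_fg.1 hfin
      refine ⟨S, fun f hf => ?_, fun B _ hFB => ?_⟩
      · have : f ∈ AddSubgroup.toIntSubmodule A := by
          rw [← hS]; exact Submodule.subset_span hf
        exact this
      · intro a ha
        have h1 : a ∈ Submodule.span ℤ (S : Set V) := by
          rw [hS]; exact ha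
        have h2 : Submodule.span ℤ (S : Set V) ≤ AddSubgroup.toIntSubmodule B :=
          Submodule.span_le.2 fun f hf => hFB f hf
        exact h2 h1

end Pool.Agent.Q170.UC
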