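import Mathlib

set_option autoImplicit false

/-! Structure of compactly generated locally compact abelian groups, part 1: Weil's lemma. -/

open Topology Filter
open scoped Pointwise

namespace Pool.Agent.Q170.UC

universe u

section

variable {G : Type u} [AddCommGroup G] [TopologicalSpace G] [IsTopologicalAddGroup G]

/-- the first multiples of a small element are small -/
lemma exists_small (N : ℕ) {W : Set G} (hW : W ∈ 𝓝 (0 : G)) :
    ∃ W' ∈ 𝓝 (0 : G), (∀ x ∈ W', -x ∈ W') ∧ ∀ x ∈ W', ∀ k : ℕ, k ≤ N → k • x ∈ W := by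
  have h1 : ∀ k : ℕ, {x : G | k • x ∈ W} ∈ 𝓝 (0 : G) := by
    intro k
    have hc : ContinuousAt (fun x : G => k • x) 0 := (continuous_const_smul k).continuousAt
    apply hc
    simpa using hW
  have h2 : (⋂ k ∈ Finset.range (N + 1), {x : G | k • x ∈ W}) ∈ 𝓝 (0 : G) := by
    rw [Filter.biInter_finset_mem]
    intro k _
    exact h1 k
  have h3 : {x : G | -x ∈ ⋂ k ∈ Finset.range (N + 1), {x : G | k • x ∈ W}} ∈ 𝓝 (0 : G) := by
    have hc : ContinuousAt (fun x : G => -x) 0 := continuous_neg.continuousAt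
    apply hc
    simpa using h2
  refine ⟨_, Filter.inter_mem h2 h3, ?_, ?_⟩
  · rintro x ⟨hx1, hx2⟩
    refine ⟨hx2, ?_⟩
    rw [Set.mem_ofPred_eq, neg_neg]; exact hx1
  · rintro x ⟨hx1, -⟩ k hk
    rw [Set.mem_iInter₂] at hx1
    exact hx1 k (Finset.mem_range.2 (by omega))

/-- if `x` has nonzero multiples near zero, then it has large positive multiples near zero -/
lemma exists_large {x : G} (hx : ∀ V ∈ 𝓝 (0 : G), ∃ n : ℤ, n ≠ 0 ∧ n • x ∈ V)
    {W : Set G} (hW : W ∈ 𝓝 (0 : G)) (N : ℕ) : ∃ n : ℕ, N < n ∧ (n : ℤ) • x ∈ W := by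
  obtain ⟨W', hW', hs, hm⟩ := exists_small (N + 1) hW
  obtain ⟨n, hn, hnx⟩ := hx W' hW'
  have h1 : ((n.natAbs : ℕ) : ℤ) • x ∈ W' := by
    rcases Int.natAbs_eq n with h | h
    · rw [← h]; exact hnx
    · have : ((n.natAbs : ℕ) : ℤ) = -n := by omega
      rw [this, neg_smul]
      exact hs _ hnx
  have hpos : 0 < n.natAbs := Int.natAbs_pos.2 hn
  refine ⟨(N + 1) * n.natAbs, by nlinarith, ?_⟩
  have h2 := hm _ h1 (N + 1) le_rfl
  have h3 : (((N + 1) * n.natAbs : ℕ) : ℤ) • x = (N + 1) • (((n.natAbs : ℕ) : ℤ) • x) := by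
    rw [natCast_zsmul, natCast_zsmul, mul_smul]
  rw [h3]; exact h2

/-- **Weil's lemma.** -/
theorem weil [LocallyCompactSpace G] (x : G)
    (hx : ∀ V ∈ 𝓝 (0 : G), ∃ n : ℤ, n ≠ 0 ∧ n • x ∈ V) :
    ∃ Y : Set G, IsCompact Y ∧ ∀ n : ℤ, n • x ∈ Y := by
  obtain ⟨V, hVc, hV0⟩ := exists_compact_mem_nhds (0 : G)
  have hVi : interior V ∈ 𝓝 (0 : G) := interior_mem_nhds.2 hV0
  obtain ⟨V2, hV2, hV2a⟩ := exists_nhds_zero_half hVi
  have hZc : IsCompact (V ∩ closure (Set.range fun n : ℤ => n • x)) :=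
    hVc.inter_right isClosed_closure
  have hcov : ∀ g ∈ V ∩ closure (Set.range fun n : ℤ => n • x),
      ∃ n : ℕ, g - ((n + 1 : ℕ) : ℤ) • x ∈ interior V := by
    rintro g ⟨-, hg⟩
    have hn : {y : G | g - y ∈ V2} ∈ 𝓝 g := by
      have hc : ContinuousAt (fun y : G => g - y) g := by fun_prop
      apply hc
      simpa using hV2
    obtain ⟨y, hy, ⟨k, rfl⟩⟩ := mem_closure_iff_nhds.1 hg _ hn
    have hW : {y : G | -y ∈ V2} ∈ 𝓝 (0 : G) := by
      have hc : ContinuousAt (fun y : G => -y) 0 := by fun_prop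
      apply hc
      simpa using hV2
    obtain ⟨n, hn1, hn2⟩ := exists_large hx hW (k.natAbs + 1)
    refine ⟨(k + n - 1).toNat, ?_⟩
    have h1 : (((k + n - 1).toNat + 1 : ℕ) : ℤ) = k + n := by omega
    rw [h1]
    have h2 : g - (k + (n : ℤ)) • x = (g - k • x) + -((n : ℤ) • x) := by
      rw [add_smul]; abel
    rw [h2]
    exact hV2a _ hy _ hn2
  obtain ⟨t, ht⟩ := hZc.elim_finite_subcover
    (fun n : ℕ => {g : G | g - ((n + 1 : ℕ) : ℤ) • x ∈ interior V})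
    (fun n => by
      have hc : Continuous (fun g : G => g - ((n + 1 : ℕ) : ℤ) • x) := by fun_prop
      exact isOpen_interior.preimage hc)
    (by
      intro g hg
      obtain ⟨n, hn⟩ := hcov g hg
      exact Set.mem_iUnion.2 ⟨n, hn⟩)
  let N : ℕ := t.sup id + 1
  refine ⟨(fun p : G × G => p.1 - p.2) '' (V ×ˢ ((fun n : ℕ => (n : ℤ) • x) '' (Set.Iic N))),
    ?_, ?_⟩
  · refine (hVc.prod ?_).image (by fun_prop)
    exact ((Set.finite_Iic N).image _).isCompact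
  · intro k
    have hex : ∃ n : ℕ, 1 ≤ n ∧ ((n : ℤ) + k) • x ∈ V := by
      obtain ⟨n', hn1, hn2⟩ := exists_large hx hV0 (k.natAbs + 1)
      refine ⟨(n' - k).toNat, by omega, ?_⟩
      have h1 : (((n' - k).toNat : ℕ) : ℤ) + k = n' := by omega
      rw [h1]; exact hn2
    classical
    set n := Nat.find hex with hndef
    obtain ⟨hn1, hn2⟩ := Nat.find_spec hex
    rw [← hndef] at hn1 hn2
    have hmem : ((n : ℤ) + k) • x ∈ V ∩ closure (Set.range fun n : ℤ => n • x) :=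
      ⟨hn2, subset_closure ⟨_, rfl⟩⟩
    have h3 := ht hmem
    rw [Set.mem_iUnion₂] at h3
    obtain ⟨j, hjt, hj⟩ := h3
    have hj' : ((n : ℤ) + k) • x - ((j + 1 : ℕ) : ℤ) • x ∈ V := interior_subset hj
    have hle : n ≤ j + 1 := by
      by_contra hlt
      push Not at hlt
      have h5 : 1 ≤ n - (j + 1) ∧ (((n - (j + 1) : ℕ) : ℤ) + k) • x ∈ V := by
        refine ⟨by omega, ?_⟩
        have h6 : (((n - (j + 1) : ℕ) : ℤ) + k) = ((n : ℤ) + k) - ((j + 1 : ℕ) : ℤ) := by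
          omega
        rw [h6, sub_smul]; exact hj'
      have := Nat.find_min' hex h5
      omega
    have hjN : j + 1 ≤ N := by
      have : j ≤ t.sup id := Finset.le_sup (f := id) hjt
      omega
    refine ⟨(((n : ℤ) + k) • x, (n : ℤ) • x), ⟨hn2, ⟨n, ?_, rfl⟩⟩, ?_⟩
    · exact le_trans hle hjN
    · show ((n : ℤ) + k) • x - (n : ℤ) • x = k • x
      rw [add_smul]; abel

/-- Weil's lemma relative to a subgroup. -/
theorem weil_rel [LocallyCompactSpace G] (D : AddSubgroup G) (x : G)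
    (hx : ∀ V ∈ 𝓝 (0 : G), ∃ n : ℤ, n ≠ 0 ∧ ∃ d ∈ D, n • x - d ∈ V) :
    ∃ Y : Set G, IsCompact Y ∧ ∀ n : ℤ, ∃ d ∈ D, n • x - d ∈ Y := by
  have hq : Continuous (QuotientAddGroup.mk : G → G ⧸ D) := continuous_quot_mk
  obtain ⟨Yb, hYb, hYn⟩ := weil (G := G ⧸ D) (x : G ⧸ D) (by
    intro Vb hVb
    have h1 : (QuotientAddGroup.mk : G → G ⧸ D) ⁻¹' Vb ∈ 𝓝 (0 : G) :=
      hq.continuousAt (by simpa using hVb)
    obtain ⟨n, hn, d, hd, hnd⟩ := hx _ h1
    refine ⟨n, hn, ?_⟩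
    have h2 : ((n • x - d : G) : G ⧸ D) = n • (x : G ⧸ D) := by
      rw [QuotientAddGroup.mk_sub, (QuotientAddGroup.eq_zero_iff d).2 hd, sub_zero,
        QuotientAddGroup.mk_zsmul]
    rw [← h2]; exact hnd)
  obtain ⟨V, hVc, hV0⟩ := exists_compact_mem_nhds (0 : G)
  have hopen : ∀ g : G, IsOpen ((QuotientAddGroup.mk : G → G ⧸ D) '' ((fun v => g + v) '' interior V)) := by
    intro g
    apply QuotientAddGroup.isOpenMap_coe
    exact (isOpenMap_add_left g) _ isOpen_interior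
  obtain ⟨t, ht⟩ := hYb.elim_finite_subcover
    (fun g : G => (QuotientAddGroup.mk : G → G ⧸ D) '' ((fun v => g + v) '' interior V)) hopen
    (by
      intro y _
      obtain ⟨g, rfl⟩ := QuotientAddGroup.mk_surjective y
      refine Set.mem_iUnion.2 ⟨g, ⟨g, ⟨0, mem_interior_iff_mem_nhds.2 hV0, by simp⟩, rfl⟩⟩)
  refine ⟨⋃ g ∈ t, (fun v => g + v) '' V, ?_, ?_⟩
  · exact t.isCompact_biUnion fun g _ => hVc.image (by fun_prop)
  · intro n
    have h1 := ht (hYn n)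
    rw [Set.mem_iUnion₂] at h1
    obtain ⟨g, hg, z, ⟨v, hv, rfl⟩, hz⟩ := h1
    have h2 : ((g + v : G) : G ⧸ D) = ((n • x : G) : G ⧸ D) := by
      rw [QuotientAddGroup.mk_zsmul]; exact hz
    rw [QuotientAddGroup.eq] at h2
    refine ⟨-(g + v) + n • x, h2, ?_⟩
    rw [Set.mem_iUnion₂]
    refine ⟨g, hg, v, interior_subset hv, ?_⟩
    show g + v = _
    abel

end

end Pool.Agent.Q170.UC
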